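import Mathlib

set_option autoImplicit false

/-!
Project PrimeConductors, block [S]: the sieve weights (Brun's pure sieve for the odd primes up to
`z`, Selberg's weights for the primes beyond `z`). Definitions.
-/

open Finset

namespace Pool.Agent.MP0016c7.PC.Sv

/-- The odd primes up to `z`. -/
def Pz (z : ℕ) : Finset ℕ := (Finset.Icc 3 z).filter Nat.Prime

/-- The sets of at most `2 * k` odd primes up to `z`. -/
def Bi (z k : ℕ) : Finset (Finset ℕ) := (Pz z).powerset.filter (fun S => S.card ≤ 2 * k)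

/-- The squarefree numbers up to `R` all of whose prime factors exceed `z`. -/
def Br (z R : ℕ) : Finset ℕ :=
  (Finset.Icc 1 R).filter (fun b => Squarefree b ∧ ∀ p ∈ b.primeFactors, z < p)

/-- Selberg's sum `G`. -/
noncomputable def GG (z R : ℕ) : ℝ := ∑ l ∈ Br z R, 1 / (l.totient : ℝ)

/-- The part of `G` with `l` coprime to `b` and `l * b ≤ R`. -/
noncomputable def Gb (z R b : ℕ) : ℝ :=
  ∑ l ∈ (Br z R).filter (fun l => Nat.Coprime l b ∧ l * b ≤ R), 1 / (l.totient : ℝ)

/-- Selberg's weights. -/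
noncomputable def la (z R b : ℕ) : ℝ :=
  (ArithmeticFunction.moebius b : ℝ) * ((b : ℝ) / (b.totient : ℝ)) * Gb z R b / GG z R

/-- The sieve weights: the product of Brun's pure sieve and Selberg's squares. -/
noncomputable def wt (z k R m : ℕ) : ℝ :=
  ∑ S ∈ Bi z k, ∑ b ∈ Br z R, ∑ b' ∈ Br z R,
    if (∏ p ∈ S, p) * Nat.lcm b b' = m then (-1 : ℝ) ^ S.card * (la z R b * la z R b') else 0

/-- `∏ (1 - 1/p)` over the odd primes up to `z`. -/
noncomputable def V1 (z : ℕ) : ℝ := ∏ p ∈ Pz z, (1 - 1 / (p : ℝ))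

/-- The primes beyond `z` which divide `N`. -/
def Pl (z N : ℕ) : Finset ℕ := N.primeFactors.filter (fun p => z < p)

/-- The sum of `1 / p` over the primes beyond `z` which divide `N`. -/
noncomputable def sl (z N : ℕ) : ℝ := ∑ p ∈ Pl z N, 1 / (p : ℝ)

/-- The density of the Brun part, restricted to numbers coprime to `N`. -/
noncomputable def DB (z k N : ℕ) : ℝ :=
  ∑ S ∈ Bi z k, if Nat.Coprime (∏ p ∈ S, p) N then (-1 : ℝ) ^ S.card / ((∏ p ∈ S, p : ℕ) : ℝ)
    else 0

/-- The density of the Selberg part, restricted to numbers coprime to `N`. -/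
noncomputable def DS (z R N : ℕ) : ℝ :=
  ∑ b ∈ Br z R, ∑ b' ∈ Br z R, if Nat.Coprime b N ∧ Nat.Coprime b' N then
    la z R b * la z R b' / (Nat.lcm b b' : ℝ) else 0

end Pool.Agent.MP0016c7.PC.Sv
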