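import Mathlib
import Pool.Agent.Lib.MP_0016c7_nt.PC.Sv.SDefs

set_option autoImplicit false

/-!
Project PrimeConductors, block [S]: the statements of the pieces, with their proofs in words.
Every piece is proved in its own file `PC/Sv/S_<name>.lean` as
`theorem piece_<name> (dependencies) : S_<name>`.
-/

open Finset

namespace Pool.Agent.MP0016c7.PC.Sv

/-- [PC S01] Elementary facts on the index sets (`z ≥ 2`).
Proof. `S` is a set of odd primes `≤ z` with at most `2 k` elements: its product `P` is squarefree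
(a product of distinct primes: `Finset.squarefree_prod_of_pairwise_isCoprime` or
`Nat.squarefree_..`; also by induction on `S`), odd, positive, its prime factors are `S`, and
`P ≤ z ^ S.card ≤ z ^ (2 k)` (`Finset.prod_le_pow_card`). `b, b'` are squarefree with prime factors
`> z ≥ 2`, hence `lcm b b'` is squarefree (`Nat.squarefree_...`: a prime power `p * p ∣ lcm` would
divide `b` or `b'`; e.g. by factorizations: `Nat.factorization_lcm` is the sup, all exponents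
`≤ 1`, `Nat.squarefree_iff_factorization_le_one`), its prime factors are `> z`, so it is odd,
coprime to `P`, and `lcm b b' ≤ b * b' ≤ R ^ 2`. -/
def S_idx : Prop := ∀ z k R : ℕ, 2 ≤ z → ∀ S ∈ Bi z k, ∀ b ∈ Br z R, ∀ b' ∈ Br z R,
  Odd ((∏ p ∈ S, p) * Nat.lcm b b') ∧ Squarefree ((∏ p ∈ S, p) * Nat.lcm b b') ∧
    Nat.Coprime (∏ p ∈ S, p) (Nat.lcm b b') ∧ 1 ≤ (∏ p ∈ S, p) * Nat.lcm b b' ∧
    (∏ p ∈ S, p) * Nat.lcm b b' ≤ z ^ (2 * k) * R ^ 2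

/-- [PC S02] The divisor sum of the weights is a product (`hyp` = S_idx).
Proof. Unfold `wt`, exchange the sum over `m ∈ d.divisors` with the three sums
(`Finset.sum_comm`), then `∑ m ∈ d.divisors, if n = m then c else 0 = if n ∣ d then c else 0`
(`Finset.sum_ite_eq`, `Nat.mem_divisors`) with `n = P * lcm b b'`. By the coprimality in S_idx
`n ∣ d ↔ P ∣ d ∧ b ∣ d ∧ b' ∣ d` (`Nat.Coprime.mul_dvd_of_dvd_of_dvd`, `Nat.lcm_dvd_iff`). So the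
term is the product of the three `if`s; `Finset.sum_mul_sum`, `sq`. -/
def S_div : Prop := ∀ z k R : ℕ, 2 ≤ z → ∀ d : ℕ, 0 < d →
  ∑ m ∈ d.divisors, wt z k R m =
    (∑ S ∈ Bi z k, if (∏ p ∈ S, p) ∣ d then (-1 : ℝ) ^ S.card else 0) *
      (∑ b ∈ Br z R, if b ∣ d then la z R b else 0) ^ 2

/-- [PC S03] Brun's pure sieve is an upper bound sieve.
Proof. Let `T = (Pz z).filter (· ∣ d)`. For `S ∈ Bi z k`, `∏ p ∈ S, p ∣ d ↔ S ⊆ T` (distinct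
primes: `Finset.prod_primes_dvd`, and `Finset.dvd_prod_of_mem` for the converse). So the sum is
`∑ S ∈ T.powerset.filter (card ≤ 2 k), (-1) ^ card = ∑ j ∈ range (2 k + 1), (-1) ^ j * choose t j`,
`t = T.card` (`Finset.sum_powerset_apply_card`-like, or group by the cardinality with
`Finset.powersetCard`). For `t = 0` it is `1`; for `t > 0` it is
`(-1) ^ (2 k) * choose (t - 1) (2 k) ≥ 0` (`Int.alternating_sum_range_choose_eq_choose`, or by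
induction on the upper limit with Pascal's rule). -/
def S_alt : Prop := ∀ z k d : ℕ, 0 < d →
  0 ≤ ∑ S ∈ Bi z k, if (∏ p ∈ S, p) ∣ d then (-1 : ℝ) ^ S.card else 0

/-- [PC S04] The density of the weights is a product (`hyp` = S_idx).
Proof. Unfold `wt`, `DB`, `DS`; exchange the sum over `m` with the three sums. For a triple
`(S, b, b')` put `n = P * lcm b b'`; by S_idx `1 ≤ n ≤ z ^ (2 k) * R ^ 2 ≤ T`, so
`∑ m ∈ (Icc 1 T).filter (Coprime · N), (if n = m then c else 0) / m` is `c / n` if `n` is coprime to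
`N` and `0` otherwise; `Coprime n N ↔ Coprime P N ∧ Coprime b N ∧ Coprime b' N`
(`Nat.Coprime.mul_left`/`Nat.coprime_mul_iff_left`, `Nat.Coprime.coprime_dvd_left` with
`b ∣ lcm b b' ∣ b * b'`). Then `Finset.sum_mul_sum`. -/
def S_den : Prop := ∀ z k R N T : ℕ, 2 ≤ z → z ^ (2 * k) * R ^ 2 ≤ T →
  ∑ m ∈ (Icc 1 T).filter (fun m => Nat.Coprime m N), wt z k R m / (m : ℝ) =
    DB z k N * DS z R N

/-- [PC S05] The density of Brun's pure sieve.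
Proof. Let `Q = (Pz z).filter (¬ · ∣ N)`. `Coprime (∏ p ∈ S, p) N ↔ S ⊆ Q` for `S ⊆ Pz z`
(`Nat.Coprime.prod_left` / `Nat.coprime_prod_left_iff`, `Nat.Prime.coprime_iff_not_dvd`), so
`DB z k N = ∑ S ∈ Q.powerset.filter (card ≤ 2 k), ∏ p ∈ S, (-1 / p)`, while
`∏ p ∈ Q, (1 - 1 / p) = ∑ S ∈ Q.powerset, ∏ p ∈ S, (-1 / p)` (`Finset.prod_one_add` or
`Finset.prod_add`). The difference is the sum over `S ⊆ Q` with `card > 2 k`; its absolute value is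
at most `∑ S ∈ Q.powerset, exp (card - 2 k) * ∏ p ∈ S, 1 / p = exp (-2 k) * ∏ p ∈ Q, (1 + e / p)
≤ exp (-2 k) * exp (∑ p ∈ Q, e / p)`, and `e ≤ 3`, `Q ⊆ Pz z`. -/
def S_brun : Prop := ∀ z k N : ℕ,
  |DB z k N - ∏ p ∈ (Pz z).filter (fun p => ¬ p ∣ N), (1 - 1 / (p : ℝ))| ≤
    Real.exp (3 * (∑ p ∈ Pz z, 1 / (p : ℝ)) - 2 * k)

/-- [PC S06] Selberg's diagonal variables.
Proof. For `b ∈ Br`, `la z R b / b = μ b / φ b * Gb z R b / GG` (`b ≠ 0`), so the left side is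
`1 / GG * ∑_{b, e ∣ b} ∑_{l coprime to b, l b ≤ R} μ b / (φ b φ l)`. The map `(b, l) ↦ (l b, b)` is a
bijection from these pairs to the pairs `(n, b)` with `n ∈ Br`, `b ∣ n`, `e ∣ b` (inverse
`l = n / b`, coprime to `b` because `n` is squarefree: `Nat.coprime_of_squarefree_mul`; divisors of
elements of `Br` are in `Br`), and `φ b φ l = φ n` (`Nat.totient_mul`). So it is
`1 / GG * ∑ n ∈ Br, 1 / φ n * ∑_{b ∣ n, e ∣ b} μ b`. If `e ∤ n` the inner sum is empty; if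
`n = e n'` then `b = e c`, `c ∣ n'`, `μ (e c) = μ e μ c` (`e c` squarefree, so coprime), and
`∑ c ∣ n', μ c = if n' = 1 then 1 else 0` (`ArithmeticFunction.sum_moebius..`,
`ArithmeticFunction.moebius_mul_coe_zeta`). Only `n = e` remains. -/
def S_yy : Prop := ∀ z R e : ℕ, e ∈ Br z R →
  ∑ b ∈ (Br z R).filter (fun b => e ∣ b), la z R b / (b : ℝ) =
    (ArithmeticFunction.moebius e : ℝ) / ((e.totient : ℝ) * GG z R)

/-- [PC S07] The minimum of Selberg's quadratic form (`hyp` = S_yy).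
Proof. `1 / lcm b b' = gcd b b' / (b b')` and `gcd b b' = ∑ e ∣ gcd b b', φ e` (`Nat.sum_totient`);
`e ∣ gcd b b'` iff `e ∣ b` and `e ∣ b'`, and divisors of elements of `Br z R` are in `Br z R`. So
the left side is `∑ e ∈ Br, φ e * (∑_{b ∈ Br, e ∣ b} la b / b) ^ 2`
`= ∑ e ∈ Br, φ e * μ e ^ 2 / (φ e ^ 2 * GG ^ 2) = 1 / GG ^ 2 * ∑ e ∈ Br, 1 / φ e = 1 / GG`
(`μ e ^ 2 = 1` for squarefree `e`; `GG > 0` because `1 ∈ Br z R`). -/
def S_min : Prop := ∀ z R : ℕ, 1 ≤ R →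
  ∑ b ∈ Br z R, ∑ b' ∈ Br z R, la z R b * la z R b' / (Nat.lcm b b' : ℝ) = 1 / GG z R

/-- [PC S08] The size of Selberg's weights.
Proof. `la 1 = 1`: `Gb z R 1 = GG z R > 0`. For `b ∈ Br` the map `(h, l) ↦ h * l` for `h ∣ b` and
`l ∈ Br` coprime to `b` with `l b ≤ R` is injective (`h = gcd (h l) b`) with values in `Br z R`
(`h l ≤ b l ≤ R`), `φ (h l) = φ h φ l`. So `(∑ h ∣ b, 1 / φ h) * Gb z R b ≤ GG z R`, and
`∑ h ∣ b, 1 / φ h = b / φ b` for squarefree `b` (multiplicative: `∏ p ∣ b, (1 + 1 / (p - 1))`; e.g.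
`Nat.sum_divisors_filter_squarefree`, `Nat.primeFactors` powerset, or by induction on the primes;
alternatively: `∑ h ∣ b, 1/φ h = (∑ h ∣ b, φ (b / h)) / φ b = b / φ b`, since
`φ b = φ h * φ (b / h)`, and `Nat.sum_totient`, `Nat.sum_div_divisors`). Finally `|μ b| ≤ 1`. -/
def S_la : Prop := ∀ z R : ℕ, 1 ≤ R → la z R 1 = 1 ∧ ∀ b ∈ Br z R, |la z R b| ≤ 1

/-- [PC S09] Two elementary sums.
Proof. First: `∑ c ∈ Icc 1 R, d(c) / c = ∑_{u v ≤ R} 1 / (u v) ≤ (∑ u ≤ R, 1 / u) ^ 2 ≤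
(1 + log R) ^ 2` (`harmonic_le_one_add_log`). Second: `1 / lcm b b' = gcd b b' / (b b')` and
`gcd b b' ≤ ∑_{g ∣ b, g ∣ b'} g`, so the sum is at most
`1 / b * ∑ g ∣ b, ∑_{b' ≤ R, g ∣ b'} g / b' ≤ 1 / b * ∑ g ∣ b, ∑_{c ≤ R} 1 / c` (`b' = g c`). -/
def S_sums : Prop := ∀ R : ℕ, 1 ≤ R →
  (∑ c ∈ Icc 1 R, (c.divisors.card : ℝ) / c ≤ (1 + Real.log R) ^ 2) ∧
  ∀ b : ℕ, 0 < b → ∑ b' ∈ Icc 1 R, 1 / (Nat.lcm b b' : ℝ) ≤
    (b.divisors.card : ℝ) / b * (1 + Real.log R)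

/-- [PC S10] The influence of the coprimality condition on the Selberg part
(`hyp` = S_la, S_sums).
Proof. By `|la| ≤ 1` the difference is at most `∑ 1 / lcm b b'` over the pairs `b, b' ∈ Br z R` for
which `b` or `b'` is not coprime to `N`; then a prime `p ∣ N`, `p > z` (so `p ∈ Pl z N`) divides `b`
or `b'`. By symmetry it is at most `2 * ∑ p ∈ Pl z N, ∑_{b ∈ Br, p ∣ b} ∑_{b' ∈ Br} 1 / lcm b b'
≤ 2 * ∑ p ∈ Pl z N, ∑_{b ≤ R, p ∣ b} d(b) / b * (1 + log R)` (S_sums) and with `b = p c`,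
`d(p c) ≤ 2 d(c)`: `≤ 2 * ∑ p ∈ Pl z N, 2 / p * ∑_{c ≤ R} d(c) / c * (1 + log R)
≤ 4 * sl z N * (1 + log R) ^ 3`. -/
def S_cop : Prop := ∀ z R N : ℕ, 1 ≤ R → 0 < N →
  |DS z R N - ∑ b ∈ Br z R, ∑ b' ∈ Br z R, la z R b * la z R b' / (Nat.lcm b b' : ℝ)| ≤
    4 * sl z N * (1 + Real.log R) ^ 3

/-- [PC S11] The lower bound for `G`.
Proof. Let `z ≥ 2`. For odd `n ≤ R` let `l` be the product of the primes `p ∣ n` with `p > z`; then
`l ∈ Br z R`, `l ∣ n`, and all prime factors of `u = n / l` are in `Pz z ∪ l.primeFactors`, i.e.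
`u ∈ Nat.factoredNumbers (Pz z ∪ l.primeFactors)`. Group the odd `n ≤ R` by `l`:
`∑ n odd ≤ R, 1 / n ≤ ∑ l ∈ Br z R, 1 / l * ∑_{u ∈ A_l} 1 / u`
`≤ ∑ l ∈ Br z R, 1 / l * ∏ p ∈ Pz z ∪ l.primeFactors, (1 - 1/p)⁻¹`
(`Pool.Agent.MT.sum_inv_le_prod` from `Lib/MP_0da313_nt/MT/Mertens.lean`)
`= ∑ l ∈ Br z R, 1 / l * (V1 z)⁻¹ * (l / φ l)` (disjoint union; `Nat.totient_mul_prod..`,
`Nat.totient_eq_mul_prod_factors : φ n = n * ∏ p ∈ n.primeFactors, (1 - p⁻¹)`) `= GG / V1`.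
And `∑ n odd ≤ R, 1 / n ≥ 1 / 2 * ∑ n ≤ R, 1 / n ≥ log R / 2`: `1 / n ≥ 1 / 2 * (1 / n + 1 / (n+1))`
for odd `n` and the pairs `n, n + 1` cover all `m ≤ R`. -/
def S_Glow : Prop := ∀ z R : ℕ, 2 ≤ z → 1 ≤ R → V1 z * (Real.log R / 2) ≤ GG z R

/-- [PC S12] The upper bound for `G` (`hyp` = S_sums).
Proof. For `l ∈ Br z R` (squarefree) `φ l = ∏ (p - 1) ≥ ∏ (p / 2) = l / 2 ^ ω(l) = l / d(l)`
(`Nat.totient_eq_prod..`, `Nat.Coprime.card_divisors_mul`, or `l = ∏ p` and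
`ArithmeticFunction.card_divisors..`), so `1 / φ l ≤ d(l) / l`; then the first part of S_sums. And
`1 ≤ GG` since `1 ∈ Br z R`. -/
def S_Gup : Prop := ∀ z R : ℕ, 1 ≤ R → 1 ≤ GG z R ∧ GG z R ≤ (1 + Real.log R) ^ 2

/-- [PC S13] Mertens' bounds.
Proof. `V1 z = 2 * kapD z` for `z ≥ 2` (`kapD z = ∏_{p ≤ z} (1 - 1/p)` of `Lib/MP_89da58_nt/Defs2`;
the prime `2` gives the factor `1 / 2`), and `1 ≤ 1000 * kapD z * log z`
(`Pool.Agent.MT.mertens` in `Lib/MP_0da313_nt/MT/Mertens.lean`): so `1 / (500 * log z) ≤ V1 z`.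
`V1 z ≤ 1` clearly. `∑ 1 / p ≤ -∑ log (1 - 1 / p) = - log (V1 z) ≤ log (500 log z)
= log (log z) + log 500` and `log 500 ≤ 7` (`500 ≤ e ^ 7`, `e ≥ 2.7`). -/
def S_mert : Prop := ∀ z : ℕ, 3 ≤ z → 1 / (500 * Real.log z) ≤ V1 z ∧ V1 z ≤ 1 ∧
  ∑ p ∈ Pz z, 1 / (p : ℝ) ≤ Real.log (Real.log z) + 7

/-- [PC S14] The factor `gN`.
Proof. First: for odd `N` the primes `p ∣ N` with `p ≤ z` are exactly the `p ∈ Pz z` with `p ∣ N`;
split `Pz z` into the primes dividing `N` and the others, and `N.primeFactors` into the primes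
`≤ z` and `> z`; cancel `(1 - 1/p) (1 - 1/p)⁻¹`. Second: every factor is `≥ 1` and
`(1 - x)⁻¹ ≤ exp (2 x)` for `0 ≤ x ≤ 1 / 2` (`(1 - x) (1 + 2 x) ≥ 1`). Third: `2 ^ ω(N) ≤ N`, so
`ω(N) ≤ log N / log 2 ≤ 2 log N`, and each `1 / p ≤ 1 / z`. -/
def S_gN : Prop :=
  (∀ z N : ℕ, Odd N →
    (∏ p ∈ (Pz z).filter (fun p => ¬ p ∣ N), (1 - 1 / (p : ℝ))) *
      (∏ p ∈ Pl z N, (1 - 1 / (p : ℝ))⁻¹) = V1 z * ∏ p ∈ N.primeFactors, (1 - 1 / (p : ℝ))⁻¹) ∧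
  (∀ z N : ℕ, 1 ≤ ∏ p ∈ Pl z N, (1 - 1 / (p : ℝ))⁻¹ ∧
    ∏ p ∈ Pl z N, (1 - 1 / (p : ℝ))⁻¹ ≤ Real.exp (2 * sl z N)) ∧
  (∀ z N : ℕ, 1 ≤ z → 0 < N → 0 ≤ sl z N ∧ sl z N ≤ 2 * Real.log N / z) ∧
  ∀ z N : ℕ, 0 ≤ ∏ p ∈ (Pz z).filter (fun p => ¬ p ∣ N), (1 - 1 / (p : ℝ)) ∧
    ∏ p ∈ (Pz z).filter (fun p => ¬ p ∣ N), (1 - 1 / (p : ℝ)) ≤ 1

/-- [PC S15] The trivial bound for the weights, and `wt 1` (`hyp` = S_idx, S_la).
Proof. `|wt m|` is at most the number of triples `(S, b, b')` with `P * lcm b b' = m`; then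
`P, b, b'` divide `m`, and `S ↦ P = ∏ p ∈ S, p` is injective on sets of primes
(`(∏ p ∈ S, p).primeFactors = S`, `Nat.primeFactors_prod`). So the number is at most `d(m) ^ 3` (for
`m = 0` there is no triple, by S_idx). For `m = 1` only `S = ∅`, `b = b' = 1` contribute, and
`la 1 = 1`. -/
def S_bd : Prop := ∀ z k R : ℕ, 2 ≤ z → 1 ≤ R →
  wt z k R 1 = 1 ∧ ∀ m : ℕ, |wt z k R m| ≤ (m.divisors.card : ℝ) ^ 3

/-- [PC S16] The choice of the parameters.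
Proof. Let `L = log X`, `k = ⌈((M + 3) * log L + 21) / 2⌉₊`, `z = ⌊exp (c * L / (2 * k))⌋₊`. Then
`2 k ≥ (M + 3) log L + 21`, `2 k ≤ (M + 3) log L + 23`; since `L / log L → ∞`,
`c L / (2 k) ≥ (M + 1) log L` and `≥ 3` eventually, so `z ≥ L ^ M` and `z ≥ 3`;
`z ^ (2 k) ≤ exp (c L) = X ^ c`, `log z ≤ c L / (2 k) ≤ L` eventually (as `2 k ≥ 21`,
`c ≤ 1`), `log log z ≤ log L`. -/
def S_par : Prop := ∀ c : ℝ, 0 < c → c ≤ 1 → ∀ M : ℕ, ∃ X₀ : ℝ, 3 ≤ X₀ ∧ ∀ X : ℝ, X₀ ≤ X →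
  ∃ z k : ℕ, 3 ≤ z ∧ (z : ℝ) ^ (2 * k) ≤ X ^ c ∧ (Real.log X) ^ M ≤ z ∧
    Real.log z ≤ Real.log X ∧
    3 * (Real.log (Real.log z) + 7) + M * Real.log (Real.log X) ≤ 2 * k

end Pool.Agent.MP0016c7.PC.Sv
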