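import Mathlib
import Pool.Agent.Lib.MP_0016c7_nt.PC.Sv.SStm

set_option autoImplicit false

/-!
Project PrimeConductors, block [S]: the combination of the error terms.
-/

open Finset

namespace Pool.Agent.MP0016c7.PC.Sv

/-- The combination of the densities. -/
lemma comb {DBv DSv P G g V L A' : ℝ} {e1 e2 e3 : ℝ} (hP0 : 0 ≤ P) (hP1 : P ≤ 1) (hG : 1 ≤ G)
    (hg1 : 1 ≤ g) (h1 : |DBv - P| ≤ e1) (h2 : |DSv - 1 / G| ≤ e2) (h3 : g - 1 ≤ e3)
    (he1 : 0 ≤ e1) (he2 : 0 ≤ e2) (hL : e1 * (1 + e2) + e2 + e3 ≤ V / L ^ A') :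
    |DBv * DSv - P * g / G| ≤ V / L ^ A' := by
  have hG0 : 0 < G := by linarith
  have hG1 : 1 / G ≤ 1 := by rw [div_le_one hG0]; exact hG
  have hG2 : 0 ≤ 1 / G := by positivity
  have hDS : |DSv| ≤ 1 + e2 := by
    have := abs_sub_abs_le_abs_sub DSv (1 / G)
    rw [abs_of_nonneg hG2] at this
    linarith
  have e : DBv * DSv - P * g / G = (DBv - P) * DSv + P * (DSv - 1 / G) + -(P * (1 / G) * (g - 1)) := by
    field_simp
    ring
  rw [e]
  have b1 : |(DBv - P) * DSv| ≤ e1 * (1 + e2) := by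
    rw [abs_mul]; exact mul_le_mul h1 hDS (abs_nonneg _) he1
  have b2 : |P * (DSv - 1 / G)| ≤ e2 := by
    rw [abs_mul, abs_of_nonneg hP0]
    calc P * |DSv - 1 / G| ≤ 1 * e2 := mul_le_mul hP1 h2 (abs_nonneg _) zero_le_one
      _ = e2 := one_mul _
  have b3 : |-(P * (1 / G) * (g - 1))| ≤ e3 := by
    rw [abs_neg, abs_of_nonneg (mul_nonneg (mul_nonneg hP0 hG2) (by linarith))]
    have : P * (1 / G) ≤ 1 := by
      calc P * (1 / G) ≤ 1 * 1 := mul_le_mul hP1 hG1 hG2 zero_le_one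
        _ = 1 := one_mul _
    calc P * (1 / G) * (g - 1) ≤ 1 * (g - 1) :=
          mul_le_mul_of_nonneg_right this (by linarith)
      _ ≤ e3 := by linarith
  calc _ ≤ |(DBv - P) * DSv + P * (DSv - 1 / G)| + |-(P * (1 / G) * (g - 1))| := abs_add_le _ _
    _ ≤ |(DBv - P) * DSv| + |P * (DSv - 1 / G)| + |-(P * (1 / G) * (g - 1))| := by
        gcongr; exact abs_add_le _ _
    _ ≤ _ := by linarith

/-- The density property with explicit parameters. -/
lemma dens_par (hbr : S_brun) (hmin : S_min) (hcop : S_cop) (hGlow : S_Glow) (hGup : S_Gup)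
    (hmert : S_mert) (hgN : S_gN) {z k R N A : ℕ} {L : ℝ} (hz : 3 ≤ z) (hR : 1 ≤ R) (hN : Odd N)
    (hL : 3 ≤ L) (hlz : Real.log z ≤ L) (hzL : L ^ (A + 20) ≤ z)
    (hk : 3 * (Real.log (Real.log z) + 7) + ((A + 20 : ℕ) : ℝ) * Real.log L ≤ 2 * k)
    (hRL : Real.log R ≤ L) (hNL : Real.log N ≤ 4 * L) :
    |DB z k N * DS z R N - V1 z / GG z R * ∏ p ∈ N.primeFactors, (1 - 1 / (p : ℝ))⁻¹| ≤
      V1 z / GG z R / L ^ A ∧ 1 / (2000 * L ^ 3) ≤ V1 z / GG z R := by
  obtain ⟨hG1, hG2⟩ := hGup z R hR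
  obtain ⟨hV1, hV2, hH⟩ := hmert z hz
  have hL0 : 0 < L := by linarith
  have hN0 : 0 < N := hN.pos
  have hz0 : (0 : ℝ) < z := by exact_mod_cast (by omega : 0 < z)
  have hz3 : (3 : ℝ) ≤ z := by exact_mod_cast hz
  have hlz1 : 1 ≤ Real.log z := by
    rw [Real.le_log_iff_exp_le hz0]
    have := Real.exp_one_lt_d9
    linarith
  have hR1 : (1 : ℝ) ≤ R := by exact_mod_cast hR
  have hlR0 : 0 ≤ Real.log R := Real.log_nonneg hR1
  -- V lower bound
  have hG0 : 0 < GG z R := by linarith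
  have hGL : GG z R ≤ 4 * L ^ 2 := by
    calc GG z R ≤ (1 + Real.log R) ^ 2 := hG2
      _ ≤ (2 * L) ^ 2 := by
        apply pow_le_pow_left₀ (by linarith)
        linarith
      _ = 4 * L ^ 2 := by ring
  have hVL : 1 / (500 * L) ≤ V1 z := by
    refine le_trans ?_ hV1
    apply one_div_le_one_div_of_le (by linarith)
    linarith
  have hV0 : 0 < V1 z := lt_of_lt_of_le (by positivity) hVL
  have hVlow : 1 / (2000 * L ^ 3) ≤ V1 z / GG z R := by
    rw [le_div_iff₀ hG0]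
    calc 1 / (2000 * L ^ 3) * GG z R ≤ 1 / (2000 * L ^ 3) * (4 * L ^ 2) := by gcongr
      _ = 1 / (500 * L) := by field_simp; norm_num
      _ ≤ V1 z := hVL
  refine ⟨?_, hVlow⟩
  obtain ⟨g1, g2, g3, g4⟩ := hgN
  have hid := g1 z N hN
  obtain ⟨hgl1, hgl2⟩ := g2 z N
  obtain ⟨hsl0, hsl⟩ := g3 z N (by omega) hN0
  obtain ⟨hP0, hP1⟩ := g4 z N
  have hM : (L ^ (A + 20))⁻¹ ≤ 1 / L := by
    rw [← one_div]
    apply one_div_le_one_div_of_le hL0
    calc L = L ^ 1 := (pow_one L).symm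
      _ ≤ L ^ (A + 20) := pow_le_pow_right₀ (by linarith) (by omega)
  have hMpos : 0 < L ^ (A + 20) := by positivity
  -- the bound for sl
  have hslb : sl z N ≤ 8 * L / L ^ (A + 20) := by
    refine hsl.trans ?_
    calc 2 * Real.log N / z ≤ 8 * L / z := by
          apply div_le_div_of_nonneg_right _ hz0.le
          linarith
      _ ≤ 8 * L / L ^ (A + 20) := by
        apply div_le_div_of_nonneg_left (by linarith) hMpos hzL
  -- e1
  have he1 : |DB z k N - ∏ p ∈ (Pz z).filter (fun p => ¬ p ∣ N), (1 - 1 / (p : ℝ))| ≤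
      1 / L ^ (A + 20) := by
    refine (hbr z k N).trans ?_
    have h5 : 3 * (∑ p ∈ Pz z, 1 / (p : ℝ)) - 2 * k ≤ -(((A + 20 : ℕ) : ℝ) * Real.log L) := by
      linarith
    calc Real.exp (3 * (∑ p ∈ Pz z, 1 / (p : ℝ)) - 2 * k)
        ≤ Real.exp (-(((A + 20 : ℕ) : ℝ) * Real.log L)) := Real.exp_le_exp.mpr h5
      _ = 1 / L ^ (A + 20) := by
        rw [Real.exp_neg, one_div, mul_comm, Real.exp_mul, Real.exp_log hL0, Real.rpow_natCast]
  -- e2
  have he2 : |DS z R N - 1 / GG z R| ≤ 256 * L ^ 4 / L ^ (A + 20) := by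
    have h6 := hcop z R N hR hN0
    rw [hmin z R hR] at h6
    refine h6.trans ?_
    calc 4 * sl z N * (1 + Real.log R) ^ 3
        ≤ 4 * (8 * L / L ^ (A + 20)) * (2 * L) ^ 3 := by
          gcongr
          linarith
      _ = 256 * L ^ 4 / L ^ (A + 20) := by ring
  -- sl ≤ 1/2
  have hL19 : L ^ (A + 20) = L ^ A * L ^ 20 := pow_add L A 20
  have hLA1 : 1 ≤ L ^ A := one_le_pow₀ (by linarith)
  have hL18 : (3 : ℝ) ^ 18 ≤ L ^ 18 := pow_le_pow_left₀ (by norm_num) hL 18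
  have hsl2 : sl z N ≤ 1 / 2 := by
    refine hslb.trans ?_
    rw [hL19, div_le_iff₀ (by positivity)]
    have : L ^ 20 = L * L * L ^ 18 := by ring
    rw [this]
    have h8 : 1 / 2 * (1 * (L * 3 * 3 ^ 18)) ≤ 1 / 2 * (L ^ A * (L * L * L ^ 18)) := by
      gcongr
    refine le_trans ?_ h8
    nlinarith
  have he3 : (∏ p ∈ Pl z N, (1 - 1 / (p : ℝ))⁻¹) - 1 ≤ 32 * L / L ^ (A + 20) := by
    have h7 : Real.exp (2 * sl z N) - 1 ≤ 2 * (2 * sl z N) := by
      have := Real.abs_exp_sub_one_le (x := 2 * sl z N) (by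
        rw [abs_of_nonneg (by linarith)]; linarith)
      rw [abs_of_nonneg (by linarith : 0 ≤ 2 * sl z N)] at this
      exact (le_abs_self _).trans this
    calc _ ≤ Real.exp (2 * sl z N) - 1 := by linarith
      _ ≤ 2 * (2 * sl z N) := h7
      _ ≤ 2 * (2 * (8 * L / L ^ (A + 20))) := by gcongr
      _ = 32 * L / L ^ (A + 20) := by ring
  have key := comb (A' := (A : ℝ)) (L := L) (V := V1 z / GG z R) hP0 hP1 hG1 hgl1 he1 he2 he3
    (by positivity) (by positivity) (by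
      rw [Real.rpow_natCast]
      rw [le_div_iff₀ (by positivity)]
      refine le_trans ?_ hVlow
      have hb : 1 / L ^ (A + 20) * (1 + 256 * L ^ 4 / L ^ (A + 20)) + 256 * L ^ 4 / L ^ (A + 20) +
          32 * L / L ^ (A + 20) ≤ 300 * L ^ 4 / L ^ (A + 20) := by
        have h9 : 256 * L ^ 4 / L ^ (A + 20) ≤ 1 := by
          rw [div_le_one hMpos, hL19]
          have : L ^ 20 = L ^ 4 * L ^ 16 := by ring
          rw [this]
          have h10 : (3 : ℝ) ^ 16 ≤ L ^ 16 := pow_le_pow_left₀ (by norm_num) hL 16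
          calc 256 * L ^ 4 ≤ 1 * (L ^ 4 * 3 ^ 16) := by nlinarith [pow_pos hL0 4]
            _ ≤ L ^ A * (L ^ 4 * L ^ 16) := by gcongr
        have h10 : (0 : ℝ) < 1 / L ^ (A + 20) := by positivity
        have h11 : L ^ 4 = L * L ^ 3 := by ring
        have h12 : (3 : ℝ) ^ 3 ≤ L ^ 3 := pow_le_pow_left₀ (by norm_num) hL 3
        have h13 : (3 : ℝ) ^ 4 ≤ L ^ 4 := pow_le_pow_left₀ (by norm_num) hL 4
        have h14 : 32 * L ≤ 2 * L ^ 4 := by rw [h11]; nlinarith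
        have : 1 / L ^ (A + 20) * (1 + 256 * L ^ 4 / L ^ (A + 20)) ≤ 1 / L ^ (A + 20) * 2 := by
          apply mul_le_mul_of_nonneg_left _ h10.le
          linarith
        calc _ ≤ 1 / L ^ (A + 20) * 2 + 256 * L ^ 4 / L ^ (A + 20) + 32 * L / L ^ (A + 20) := by
              linarith
          _ = (2 + 256 * L ^ 4 + 32 * L) / L ^ (A + 20) := by ring
          _ ≤ 300 * L ^ 4 / L ^ (A + 20) := by
              apply div_le_div_of_nonneg_right _ hMpos.le
              linarith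
      calc _ ≤ 300 * L ^ 4 / L ^ (A + 20) * L ^ A := by
            apply mul_le_mul_of_nonneg_right hb (by positivity)
        _ = 300 * L ^ 7 / L ^ 20 * (1 / L ^ 3) := by
            rw [hL19]; field_simp
        _ ≤ 1 / (2000 * L ^ 3) := by
            have h15 : 300 * L ^ 7 / L ^ 20 ≤ 1 / 2000 := by
              rw [div_le_div_iff₀ (by positivity) (by norm_num)]
              have : L ^ 20 = L ^ 7 * L ^ 13 := by ring
              rw [this]
              have h16 : (3 : ℝ) ^ 13 ≤ L ^ 13 := pow_le_pow_left₀ (by norm_num) hL 13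
              have h17 : 0 < L ^ 7 := by positivity
              nlinarith
            calc 300 * L ^ 7 / L ^ 20 * (1 / L ^ 3) ≤ 1 / 2000 * (1 / L ^ 3) := by gcongr
              _ = 1 / (2000 * L ^ 3) := by field_simp)
  rw [Real.rpow_natCast] at key
  have e4 : V1 z / GG z R * ∏ p ∈ N.primeFactors, (1 - 1 / (p : ℝ))⁻¹ =
      (∏ p ∈ (Pz z).filter (fun p => ¬ p ∣ N), (1 - 1 / (p : ℝ))) *
        (∏ p ∈ Pl z N, (1 - 1 / (p : ℝ))⁻¹) / GG z R := by
    rw [hid]; ring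
  rw [e4]
  exact key

end Pool.Agent.MP0016c7.PC.Sv
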