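import Mathlib
import Pool.Agent.Lib.MP_0016c7_nt.PC.Sv.SAsm0
import Pool.Agent.Lib.MP_0016c7_nt.Rz.DivB

set_option autoImplicit false

/-!
Project PrimeConductors, block [S]: the assembly.
-/

open Finset

namespace Pool.Agent.MP0016c7.PC.Sv

/-- The existence of the sieve weights, with all the conditions written out. -/
def S_sieve : Prop :=
  ∀ η : ℝ, 0 < η → η < 1 / 2 → ∀ ε₀ : ℝ, 0 < ε₀ → ∀ (A : ℕ) (κ' : ℝ), 4 / η < κ' →
    ∃ X₀ : ℝ, ∀ X : ℝ, X₀ ≤ X → ∃ (w : ℕ → ℝ) (V : ℝ),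
      w 1 = 1 ∧
      (∀ m : ℕ, w m ≠ 0 → Odd m ∧ Squarefree m ∧ (m : ℝ) ≤ X ^ η) ∧
      (∀ m : ℕ, |w m| ≤ X ^ ε₀) ∧
      (∀ d : ℕ, 0 < d → 0 ≤ ∑ m ∈ d.divisors, w m) ∧
      0 < V ∧
      (Real.log X) ^ (-(10 : ℝ)) ≤ V ∧
      (∀ N : ℕ, Odd N → (N : ℝ) ≤ X ^ 4 →
        |(∑ m ∈ (Icc 1 ⌊X ^ η⌋₊).filter (fun m => Nat.Coprime m N), w m / m) -
          V * ∏ p ∈ N.primeFactors, (1 - 1 / (p : ℝ))⁻¹| ≤ V / (Real.log X) ^ A) ∧
      V * Real.log X ≤ κ'

/-- A nonzero weight comes from a triple. -/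
lemma exists_of_wt_ne_zero {z k R m : ℕ} (h : wt z k R m ≠ 0) :
    ∃ S ∈ Bi z k, ∃ b ∈ Br z R, ∃ b' ∈ Br z R, (∏ p ∈ S, p) * Nat.lcm b b' = m := by
  unfold wt at h
  obtain ⟨S, hS, h1⟩ := Finset.exists_ne_zero_of_sum_ne_zero h
  obtain ⟨b, hb, h2⟩ := Finset.exists_ne_zero_of_sum_ne_zero h1
  obtain ⟨b', hb', h3⟩ := Finset.exists_ne_zero_of_sum_ne_zero h2
  refine ⟨S, hS, b, hb, b', hb', ?_⟩
  by_contra h4
  exact h3 (if_neg h4)

theorem sieve_of (h01 : S_idx) (h02 : S_div) (h03 : S_alt) (h04 : S_den) (h05 : S_brun)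
    (h07 : S_min) (h10 : S_cop) (h11 : S_Glow) (h12 : S_Gup) (h13 : S_mert)
    (h14 : S_gN) (h15 : S_bd) (h16 : S_par) : S_sieve := by
  intro η hη hη2 ε₀ hε₀ A κ' hκ
  have hκ0 : 0 < κ' := lt_trans (by positivity) hκ
  have hκη : 4 / κ' < η := by
    rw [div_lt_iff₀ hκ0]
    rw [div_lt_iff₀ hη] at hκ
    linarith
  -- the level of the Selberg part
  obtain ⟨η₂, hη21, hη22⟩ := exists_between hκη
  have hη20 : 0 < η₂ := lt_trans (by positivity) hη21
  have hκη2 : 4 < κ' * η₂ := by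
    rw [div_lt_iff₀ hκ0] at hη21
    linarith
  obtain ⟨X₁, hX₁3, hX₁⟩ := h16 (η - η₂) (by linarith) (by linarith) (A + 20)
  obtain ⟨C, hC, hCd⟩ := Rz.divisor_bound (ε₀ / 3) (by positivity)
  -- eventually conditions
  have ev1 : ∀ᶠ X : ℝ in Filter.atTop, C ^ 3 ≤ X ^ (ε₀ / 2) :=
    (tendsto_rpow_atTop (by positivity)).eventually_ge_atTop _
  have ev2 : ∀ᶠ X : ℝ in Filter.atTop, (3 : ℝ) ≤ Real.log X :=
    Real.tendsto_log_atTop.eventually_ge_atTop _
  have ev3 : ∀ᶠ X : ℝ in Filter.atTop, κ' * Real.log 2 / ((κ' * η₂ - 4) / 2) ≤ Real.log X :=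
    Real.tendsto_log_atTop.eventually_ge_atTop _
  have ev4 : ∀ᶠ X : ℝ in Filter.atTop, 4 / η₂ * Real.log 2 + 1 ≤ Real.log X :=
    Real.tendsto_log_atTop.eventually_ge_atTop _
  obtain ⟨X₂, hX₂⟩ := Filter.eventually_atTop.mp (ev1.and (ev2.and (ev3.and ev4)))
  refine ⟨max X₁ X₂, fun X hX => ?_⟩
  obtain ⟨c1, c2, c3, c4⟩ := hX₂ X ((le_max_right _ _).trans hX)
  have hX3 : 3 ≤ X := hX₁3.trans ((le_max_left _ _).trans hX)
  obtain ⟨z, k, hz, hzk, hzM, hlz, hk⟩ := hX₁ X ((le_max_left _ _).trans hX)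
  have hX0 : 0 < X := by linarith
  have hX1 : 1 ≤ X := by linarith
  set L := Real.log X with hLdef
  have hL0 : 0 < L := by linarith
  set R := ⌊X ^ (η₂ / 2)⌋₊ with hRdef
  have hXp : 1 ≤ X ^ (η₂ / 2) := Real.one_le_rpow hX1 (by positivity)
  have hXp0 : 0 < X ^ (η₂ / 2) := by linarith
  have hR1 : 1 ≤ R := by
    rw [hRdef, Nat.one_le_floor_iff]; exact hXp
  have hRle : (R : ℝ) ≤ X ^ (η₂ / 2) := Nat.floor_le hXp0.le
  have hRlt : X ^ (η₂ / 2) < R + 1 := Nat.lt_floor_add_one _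
  have hR1' : (1 : ℝ) ≤ R := by exact_mod_cast hR1
  have hR0' : (0 : ℝ) < R := by linarith
  -- log R
  have hlogR : η₂ / 2 * L - Real.log 2 ≤ Real.log R := by
    have h1 : X ^ (η₂ / 2) ≤ 2 * R := by linarith
    have h2 := Real.log_le_log hXp0 h1
    rw [Real.log_rpow hX0, Real.log_mul (by norm_num) (by positivity)] at h2
    linarith
  have hlogRle : Real.log R ≤ L := by
    have h2 := Real.log_le_log hR0' hRle
    rw [Real.log_rpow hX0] at h2
    nlinarith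
  have hlog2 : 0 < Real.log 2 := Real.log_pos (by norm_num)
  have hlogRpos : 0 < Real.log R := by
    have : η₂ / 2 * (4 / η₂ * Real.log 2 + 1) ≤ η₂ / 2 * L :=
      mul_le_mul_of_nonneg_left c4 (by positivity)
    have e : η₂ / 2 * (4 / η₂ * Real.log 2 + 1) = 2 * Real.log 2 + η₂ / 2 := by
      field_simp
      ring
    rw [e] at this
    linarith
  -- the level
  have hlev : ((z ^ (2 * k) * R ^ 2 : ℕ) : ℝ) ≤ X ^ η := by
    push_cast
    have h1 : (R : ℝ) ^ 2 ≤ (X ^ (η₂ / 2)) ^ 2 := pow_le_pow_left₀ hR0'.le hRle 2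
    have h2 : (X ^ (η₂ / 2)) ^ 2 = X ^ η₂ := by
      rw [← Real.rpow_natCast, ← Real.rpow_mul hX0.le]
      congr 1
      push_cast
      ring
    calc (z : ℝ) ^ (2 * k) * (R : ℝ) ^ 2 ≤ X ^ (η - η₂) * X ^ η₂ := by
          rw [← h2]
          exact mul_le_mul hzk h1 (by positivity) (Real.rpow_nonneg hX0.le _)
      _ = X ^ η := by
          rw [← Real.rpow_add hX0]
          congr 1
          ring
  have hz2 : 2 ≤ z := by omega
  obtain ⟨hw1, hwb⟩ := h15 z k R hz2 hR1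
  obtain ⟨hG1, hG2⟩ := h12 z R hR1
  have hG0 : 0 < GG z R := by linarith
  -- the density
  have hdens := fun (N : ℕ) (hN : Odd N) (hN4 : (N : ℝ) ≤ X ^ 4) =>
    dens_par h05 h07 h10 h11 h12 h13 h14 (z := z) (k := k) (R := R) (N := N) (A := A) (L := L) hz
      hR1 hN c2 hlz hzM hk hlogRle (by
        have hN0 : (0 : ℝ) < N := by exact_mod_cast hN.pos
        have := Real.log_le_log hN0 hN4
        rw [Real.log_pow] at this
        push_cast at this
        exact this)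
  have hVlow := (hdens 1 odd_one (by
    push_cast
    exact one_le_pow₀ hX1)).2
  have hV0 : 0 < V1 z / GG z R := lt_of_lt_of_le (by positivity) hVlow
  have hV10 : 0 < V1 z := by
    have := mul_pos hV0 hG0
    rwa [div_mul_cancel₀ _ hG0.ne'] at this
  refine ⟨wt z k R, V1 z / GG z R, hw1, ?_, ?_, ?_, hV0, ?_, ?_, ?_⟩
  · -- support
    intro m hm
    obtain ⟨S, hS, b, hb, b', hb', rfl⟩ := exists_of_wt_ne_zero hm
    obtain ⟨i1, i2, i3, i4, i5⟩ := h01 z k R hz2 S hS b hb b' hb'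
    refine ⟨i1, i2, ?_⟩
    refine le_trans ?_ hlev
    exact_mod_cast i5
  · -- size
    intro m
    by_cases hm : wt z k R m = 0
    · rw [hm, abs_zero]
      exact Real.rpow_nonneg hX0.le _
    · obtain ⟨S, hS, b, hb, b', hb', hmm⟩ := exists_of_wt_ne_zero hm
      obtain ⟨i1, i2, i3, i4, i5⟩ := h01 z k R hz2 S hS b hb b' hb'
      rw [hmm] at i4 i5
      have hmX : (m : ℝ) ≤ X ^ η := le_trans (by exact_mod_cast i5) hlev
      have hmX' : (m : ℝ) ≤ X := by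
        refine hmX.trans ?_
        calc X ^ η ≤ X ^ (1 : ℝ) := Real.rpow_le_rpow_of_exponent_le hX1 (by linarith)
          _ = X := Real.rpow_one X
      have hm0 : (0 : ℝ) ≤ m := Nat.cast_nonneg _
      have h1 := hCd m i4
      have h2 : (m : ℝ) ^ (ε₀ / 3) ≤ (X ^ η) ^ (ε₀ / 3) :=
        Real.rpow_le_rpow hm0 hmX (by positivity)
      have h3 : (m.divisors.card : ℝ) ≤ C * (X ^ η) ^ (ε₀ / 3) :=
        h1.trans (mul_le_mul_of_nonneg_left h2 hC.le)
      calc |wt z k R m| ≤ (m.divisors.card : ℝ) ^ 3 := hwb m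
        _ ≤ (C * (X ^ η) ^ (ε₀ / 3)) ^ 3 := pow_le_pow_left₀ (Nat.cast_nonneg _) h3 3
        _ = C ^ 3 * X ^ (η * ε₀) := by
          rw [mul_pow]
          congr 1
          rw [← Real.rpow_mul hX0.le, ← Real.rpow_natCast, ← Real.rpow_mul hX0.le]
          congr 1
          push_cast
          ring
        _ ≤ X ^ (ε₀ / 2) * X ^ (ε₀ / 2) := by
          apply mul_le_mul c1 _ (Real.rpow_nonneg hX0.le _) (Real.rpow_nonneg hX0.le _)
          apply Real.rpow_le_rpow_of_exponent_le hX1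
          nlinarith
        _ = X ^ ε₀ := by
          rw [← Real.rpow_add hX0]
          congr 1
          ring
  · -- nonnegative
    intro d hd
    rw [h02 z k R hz2 d hd]
    exact mul_nonneg (h03 z k d hd) (sq_nonneg _)
  · -- lower bound
    refine le_trans ?_ hVlow
    rw [Real.rpow_neg hL0.le, one_div]
    apply inv_anti₀ (by positivity)
    have h10 : L ^ (10 : ℝ) = L ^ 10 := by
      rw [← Real.rpow_natCast]; norm_num
    rw [h10]
    have h7 : (3 : ℝ) ^ 7 ≤ L ^ 7 := pow_le_pow_left₀ (by norm_num) c2 7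
    have h3 : 0 < L ^ 3 := by positivity
    calc 2000 * L ^ 3 ≤ 3 ^ 7 * L ^ 3 := by nlinarith
      _ ≤ L ^ 7 * L ^ 3 := by gcongr
      _ = L ^ 10 := by ring
  · -- density
    intro N hN hN4
    have hT : z ^ (2 * k) * R ^ 2 ≤ ⌊X ^ η⌋₊ := Nat.le_floor hlev
    rw [h04 z k R N _ hz2 hT]
    exact (hdens N hN hN4).1
  · -- the size of V
    have h1 := h11 z R hz2 hR1
    have h2 : V1 z / GG z R ≤ 2 / Real.log R := by
      rw [div_le_div_iff₀ hG0 hlogRpos]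
      linarith
    calc V1 z / GG z R * L ≤ 2 / Real.log R * L := mul_le_mul_of_nonneg_right h2 hL0.le
      _ ≤ κ' := by
        rw [div_mul_eq_mul_div, div_le_iff₀ hlogRpos]
        have h3 : κ' * (η₂ / 2 * L - Real.log 2) ≤ κ' * Real.log R :=
          mul_le_mul_of_nonneg_left hlogR hκ0.le
        refine le_trans ?_ h3
        have h4 : 0 < (κ' * η₂ - 4) / 2 := by linarith
        rw [div_le_iff₀ h4] at c3
        nlinarith

end Pool.Agent.MP0016c7.PC.Sv
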