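import Mathlib
import Pool.Agent.Lib.MP_0016c7_nt.PC.Sv.SStm
import Pool.Agent.Lib.MP_0da313_nt.MT.Mertens

set_option autoImplicit false

/-!
Project PrimeConductors, block [S], piece S11: the lower bound for Selberg's sum `G`.
-/

open Finset

namespace Pool.Agent.MP0016c7.PC.Sv

/-- the part of `n` composed of the primes beyond `z`, without multiplicity -/
private noncomputable def glow_l (z n : ℕ) : ℕ := ∏ p ∈ n.primeFactors.filter (fun p => z < p), p

private lemma glow_pf (z n : ℕ) :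
    (glow_l z n).primeFactors = n.primeFactors.filter (fun p => z < p) := by
  unfold glow_l
  apply Nat.primeFactors_prod
  intro p hp
  exact Nat.prime_of_mem_primeFactors (Finset.mem_filter.1 hp).1

private lemma glow_dvd (z n : ℕ) : glow_l z n ∣ n := by
  refine dvd_trans ?_ (Nat.prod_primeFactors_dvd n)
  unfold glow_l
  exact Finset.prod_dvd_prod_of_subset _ _ _ (Finset.filter_subset _ _)

private lemma glow_sqf (z n : ℕ) : Squarefree (glow_l z n) := by
  have h : glow_l z n ∣ ∏ p ∈ n.primeFactors, p := by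
    unfold glow_l
    exact Finset.prod_dvd_prod_of_subset _ _ _ (Finset.filter_subset _ _)
  refine Squarefree.squarefree_of_dvd h ?_
  rw [← Nat.radical_eq_prod_primeFactors]
  · exact UniqueFactorizationMonoid.squarefree_radical

private lemma glow_mem (z R n : ℕ) (hn : n ∈ Icc 1 R) : glow_l z n ∈ Br z R := by
  rw [Finset.mem_Icc] at hn
  unfold Br
  rw [Finset.mem_filter, Finset.mem_Icc]
  refine ⟨⟨?_, ?_⟩, glow_sqf z n, ?_⟩
  · exact Nat.pos_of_dvd_of_pos (glow_dvd z n) (by omega)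
  · exact (Nat.le_of_dvd (by omega) (glow_dvd z n)).trans hn.2
  · intro p hp
    rw [glow_pf] at hp
    exact (Finset.mem_filter.1 hp).2

private lemma glow_V1_pos (z : ℕ) : 0 < V1 z := by
  unfold V1 Pz
  apply Finset.prod_pos
  intro p hp
  have hp2 : (2 : ℝ) ≤ p := by exact_mod_cast (Finset.mem_filter.1 hp).2.two_le
  have : 1 / (p : ℝ) ≤ 1 / 2 := one_div_le_one_div_of_le (by norm_num) hp2
  linarith

/-- the fibre over `l` -/
private lemma glow_fib (z R l : ℕ) (hl : l ∈ Br z R) :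
    ∑ n ∈ ((Icc 1 R).filter (fun n => Odd n)) with glow_l z n = l, (n : ℝ)⁻¹ ≤
      (V1 z)⁻¹ * (1 / (l.totient : ℝ)) := by
  classical
  unfold Br at hl
  rw [Finset.mem_filter, Finset.mem_Icc] at hl
  obtain ⟨⟨hl1, hlR⟩, hsq, hlp⟩ := hl
  set F := ((Icc 1 R).filter (fun n => Odd n)).filter (fun n => glow_l z n = l) with hF
  have hdv : ∀ n ∈ F, l ∣ n := by
    intro n hn
    rw [hF, Finset.mem_filter] at hn
    rw [← hn.2]
    exact glow_dvd z n
  have h1 : ∑ n ∈ F, (n : ℝ)⁻¹ = (l : ℝ)⁻¹ * ∑ u ∈ F.image (fun n => n / l), (u : ℝ)⁻¹ := by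
    rw [Finset.sum_image, Finset.mul_sum]
    · apply Finset.sum_congr rfl
      intro n hn
      obtain ⟨c, rfl⟩ := hdv n hn
      rw [Nat.mul_div_cancel_left _ (by omega)]
      push_cast
      rw [mul_inv]
    · intro a ha b hb hab
      obtain ⟨c, rfl⟩ := hdv a ha
      obtain ⟨d, rfl⟩ := hdv b hb
      simp only [Nat.mul_div_cancel_left _ (show 0 < l by omega)] at hab
      rw [hab]
  have h2 := Pool.Agent.MT.sum_inv_le_prod (Pz z ∪ l.primeFactors) (F.image (fun n => n / l)) (by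
    intro u hu
    rw [Finset.mem_image] at hu
    obtain ⟨n, hn, rfl⟩ := hu
    have hn' := hn
    rw [hF, Finset.mem_filter, Finset.mem_filter, Finset.mem_Icc] at hn'
    obtain ⟨⟨⟨hn1, hnR⟩, hodd⟩, hnl⟩ := hn'
    obtain ⟨c, hc⟩ := hdv n hn
    have hc0 : c ≠ 0 := by
      rintro rfl
      omega
    have hdiv : n / l = c := by rw [hc, Nat.mul_div_cancel_left _ (by omega)]
    rw [hdiv, Nat.mem_factoredNumbers]
    refine ⟨hc0, fun p hp => ?_⟩
    have hpp := Nat.prime_of_mem_primeFactorsList hp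
    have hpd := Nat.dvd_of_mem_primeFactorsList hp
    have hpn : p ∣ n := by rw [hc]; exact Dvd.dvd.mul_left hpd l
    rw [Finset.mem_union]
    by_cases hpz : p ≤ z
    · left
      unfold Pz
      rw [Finset.mem_filter, Finset.mem_Icc]
      have h2 := hpp.two_le
      have hp2 : p ≠ 2 := by
        rintro rfl
        exact (Nat.not_even_iff_odd.2 hodd) (even_iff_two_dvd.2 hpn)
      exact ⟨⟨by omega, hpz⟩, hpp⟩
    · right
      rw [← hnl, glow_pf, Finset.mem_filter]
      exact ⟨Nat.mem_primeFactors.2 ⟨hpp, hpn, by omega⟩, by omega⟩)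
  have hdisj : Disjoint (Pz z) l.primeFactors := by
    rw [Finset.disjoint_left]
    intro p hp hp'
    unfold Pz at hp
    rw [Finset.mem_filter, Finset.mem_Icc] at hp
    have := hlp p hp'
    omega
  have h3 : ∏ p ∈ (Pz z ∪ l.primeFactors) with p.Prime, (1 - (p : ℝ)⁻¹)⁻¹ =
      (V1 z)⁻¹ * ((l : ℝ) / (l.totient : ℝ)) := by
    have hfil : (Pz z ∪ l.primeFactors).filter Nat.Prime = Pz z ∪ l.primeFactors := by
      apply Finset.filter_true_of_mem
      intro p hp
      rcases Finset.mem_union.1 hp with h | h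
      · exact (Finset.mem_filter.1 h).2
      · exact Nat.prime_of_mem_primeFactors h
    rw [hfil, Finset.prod_union hdisj]
    congr 1
    · unfold V1
      rw [← Finset.prod_inv_distrib]
      apply Finset.prod_congr rfl
      intro p _
      rw [one_div]
    · have ht : ((l.totient : ℕ) : ℝ) = (l : ℝ) * ∏ p ∈ l.primeFactors, (1 - (p : ℝ)⁻¹) := by
        have := Nat.totient_eq_mul_prod_factors l
        have h' : ((l.totient : ℚ) : ℝ) =
            (((l : ℚ) * ∏ p ∈ l.primeFactors, (1 - (p : ℚ)⁻¹) : ℚ) : ℝ) := by rw [this]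
        push_cast at h'
        exact h'
      have hl0 : (l : ℝ) ≠ 0 := by
        have : 0 < l := by omega
        positivity
      rw [Finset.prod_inv_distrib, ht, div_mul_eq_div_div, div_self hl0, one_div]
  rw [h1]
  have hlpos : (0 : ℝ) < (l : ℝ) := by exact_mod_cast (show 0 < l by omega)
  calc (l : ℝ)⁻¹ * ∑ u ∈ F.image (fun n => n / l), (u : ℝ)⁻¹
      ≤ (l : ℝ)⁻¹ * ((V1 z)⁻¹ * ((l : ℝ) / (l.totient : ℝ))) := by
        rw [← h3]
        exact mul_le_mul_of_nonneg_left h2 (by positivity)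
    _ = (V1 z)⁻¹ * (1 / (l.totient : ℝ)) := by
        field_simp

/-- the odd harmonic sum -/
private lemma glow_odd (R : ℕ) :
    ∑ n ∈ Icc 1 R, (n : ℝ)⁻¹ ≤ 2 * ∑ n ∈ (Icc 1 R).filter (fun n => Odd n), (n : ℝ)⁻¹ := by
  classical
  have hsplit := Finset.sum_filter_add_sum_filter_not (Icc 1 R) (fun n => Odd n)
    (fun n => (n : ℝ)⁻¹)
  have heven : ∑ n ∈ (Icc 1 R).filter (fun n => ¬ Odd n), (n : ℝ)⁻¹ ≤
      ∑ n ∈ (Icc 1 R).filter (fun n => Odd n), (n : ℝ)⁻¹ := by
    have hinj : Set.InjOn (fun n : ℕ => n - 1) ((Icc 1 R).filter (fun n => ¬ Odd n) : Finset ℕ) := by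
      intro a ha b hb hab
      simp only [Finset.coe_filter, Finset.mem_Icc, Set.mem_ofPred_eq] at ha hb
      simp only at hab
      omega
    calc ∑ n ∈ (Icc 1 R).filter (fun n => ¬ Odd n), (n : ℝ)⁻¹
        ≤ ∑ n ∈ (Icc 1 R).filter (fun n => ¬ Odd n), (((n - 1 : ℕ)) : ℝ)⁻¹ := by
          apply Finset.sum_le_sum
          intro n hn
          rw [Finset.mem_filter, Finset.mem_Icc, Nat.not_odd_iff_even] at hn
          obtain ⟨⟨hn1, _⟩, c, hc⟩ := hn
          have : 1 ≤ n - 1 := by omega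
          apply inv_anti₀
          · exact_mod_cast this
          · exact_mod_cast (Nat.sub_le n 1)
      _ = ∑ m ∈ ((Icc 1 R).filter (fun n => ¬ Odd n)).image (fun n : ℕ => n - 1), ((m : ℕ) : ℝ)⁻¹ := by
          rw [Finset.sum_image hinj]
      _ ≤ ∑ n ∈ (Icc 1 R).filter (fun n => Odd n), (n : ℝ)⁻¹ := by
          apply Finset.sum_le_sum_of_subset_of_nonneg
          · intro m hm
            rw [Finset.mem_image] at hm
            obtain ⟨n, hn, rfl⟩ := hm
            rw [Finset.mem_filter, Finset.mem_Icc, Nat.not_odd_iff_even] at hn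
            obtain ⟨⟨hn1, hnR⟩, c, hc⟩ := hn
            rw [Finset.mem_filter, Finset.mem_Icc]
            exact ⟨⟨by omega, by omega⟩, ⟨c - 1, by omega⟩⟩
          · intro i _ _
            positivity
  linarith

theorem piece_Glow : S_Glow := by
  classical
  intro z R _ hR
  have hV := glow_V1_pos z
  have h1 := Pool.Agent.MT.log_le_sum_inv R hR
  have h2 := glow_odd R
  have h3 : ∑ n ∈ (Icc 1 R).filter (fun n => Odd n), (n : ℝ)⁻¹ =
      ∑ l ∈ Br z R, ∑ n ∈ ((Icc 1 R).filter (fun n => Odd n)) with glow_l z n = l, (n : ℝ)⁻¹ := by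
    symm
    apply Finset.sum_fiberwise_of_maps_to
    intro n hn
    exact glow_mem z R n (Finset.mem_filter.1 hn).1
  have h4 : ∑ n ∈ (Icc 1 R).filter (fun n => Odd n), (n : ℝ)⁻¹ ≤ (V1 z)⁻¹ * GG z R := by
    rw [h3]
    unfold GG
    rw [Finset.mul_sum]
    exact Finset.sum_le_sum (fun l hl => glow_fib z R l hl)
  have h5 : Real.log R / 2 ≤ (V1 z)⁻¹ * GG z R := by linarith
  calc V1 z * (Real.log R / 2) ≤ V1 z * ((V1 z)⁻¹ * GG z R) :=
        mul_le_mul_of_nonneg_left h5 hV.le
    _ = GG z R := by rw [← mul_assoc, mul_inv_cancel₀ hV.ne', one_mul]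

end Pool.Agent.MP0016c7.PC.Sv
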