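import Pool.Agent.Lib.MP_0016c7_nt.PC.Sv.SStm

set_option autoImplicit false

/-!
Project PrimeConductors, block [S]: the upper bound for Selberg's sum.
-/

open Finset

namespace Pool.Agent.MP0016c7.PC.Sv

private theorem gup_aux {l : ℕ} (hl : 1 ≤ l) :
    1 / (l.totient : ℝ) ≤ (l.divisors.card : ℝ) / l := by
  have h1 : l ≤ l.divisors.card * l.totient := by
    calc l = ∑ d ∈ l.divisors, d.totient := (Nat.sum_totient l).symm
      _ ≤ ∑ _d ∈ l.divisors, l.totient := Finset.sum_le_sum fun d hd =>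
          Nat.le_of_dvd (Nat.totient_pos.2 hl)
            (Nat.totient_dvd_of_dvd (Nat.dvd_of_mem_divisors hd))
      _ = l.divisors.card * l.totient := by rw [Finset.sum_const, smul_eq_mul]
  have h2 : (0 : ℝ) < l := by exact_mod_cast hl
  have h3 : (0 : ℝ) < l.totient := by exact_mod_cast Nat.totient_pos.2 hl
  rw [div_le_div_iff₀ h3 h2, one_mul]
  exact_mod_cast h1

theorem piece_Gup (h1 : S_sums) : S_Gup := by
  intro z R hR
  have h1m : 1 ∈ Br z R := by
    refine Finset.mem_filter.2 ⟨Finset.mem_Icc.2 ⟨le_rfl, hR⟩, squarefree_one, ?_⟩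
    intro p hp
    simp at hp
  constructor
  · have := Finset.single_le_sum (s := Br z R) (f := fun l : ℕ => 1 / (l.totient : ℝ))
      (fun i _ => by positivity) h1m
    simpa [GG] using this
  · calc GG z R = ∑ l ∈ Br z R, 1 / (l.totient : ℝ) := rfl
      _ ≤ ∑ l ∈ Br z R, (l.divisors.card : ℝ) / l := Finset.sum_le_sum fun l hl =>
          gup_aux (Finset.mem_Icc.1 (Finset.mem_filter.1 hl).1).1
      _ ≤ ∑ l ∈ Icc 1 R, (l.divisors.card : ℝ) / l :=
          Finset.sum_le_sum_of_subset_of_nonneg (Finset.filter_subset _ _)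
            fun i _ _ => by positivity
      _ ≤ (1 + Real.log R) ^ 2 := (h1 R hR).1

end Pool.Agent.MP0016c7.PC.Sv
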