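import Pool.Agent.Lib.MP_0016c7_nt.PC.Sv.SStm

set_option autoImplicit false

/-!
Project PrimeConductors, block [S], piece S03: Brun's pure sieve is an upper bound sieve.
-/

open Finset

namespace Pool.Agent.MP0016c7.PC.Sv

private theorem alt_range (t k : ℕ) :
    0 ≤ ∑ j ∈ range (2 * k + 1), ((-1 : ℤ) ^ j * (t.choose j : ℤ)) := by
  rcases Nat.eq_zero_or_pos t with rfl | ht
  · rw [Finset.sum_eq_single 0]
    · simp
    · intro j _ hj
      rw [Nat.choose_eq_zero_of_lt (Nat.pos_of_ne_zero hj)]
      simp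
    · intro h
      exact absurd (Finset.mem_range.2 (by omega)) h
  · obtain ⟨n, rfl⟩ := Nat.exists_eq_add_of_lt ht
    have h := Int.alternating_sum_range_choose_eq_choose (n := n) (m := 2 * k)
    rw [pow_mul] at h
    have e : 0 + n + 1 = n + 1 := by omega
    rw [e, h]
    simp

private theorem alt_powerset (T : Finset ℕ) (k : ℕ) :
    0 ≤ ∑ S ∈ T.powerset, (if S.card ≤ 2 * k then (-1 : ℤ) ^ S.card else 0) := by
  rw [Finset.sum_powerset_apply_card (fun j => if j ≤ 2 * k then (-1 : ℤ) ^ j else 0)]
  have h : ∑ m ∈ range (T.card + 1), T.card.choose m • (if m ≤ 2 * k then (-1 : ℤ) ^ m else 0) =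
      ∑ j ∈ range (2 * k + 1), ((-1 : ℤ) ^ j * (T.card.choose j : ℤ)) := by
    have h1 : ∑ m ∈ range (T.card + 1), T.card.choose m • (if m ≤ 2 * k then (-1 : ℤ) ^ m else 0) =
        ∑ m ∈ range (T.card + 1 + (2 * k + 1)),
          T.card.choose m • (if m ≤ 2 * k then (-1 : ℤ) ^ m else 0) := by
      apply Finset.sum_subset
      · intro m hm
        rw [Finset.mem_range] at hm ⊢
        omega
      · intro m _ hm
        rw [Finset.mem_range] at hm
        rw [Nat.choose_eq_zero_of_lt (by omega), zero_smul]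
    have h2 : ∑ j ∈ range (2 * k + 1), ((-1 : ℤ) ^ j * (T.card.choose j : ℤ)) =
        ∑ j ∈ range (2 * k + 1), T.card.choose j • (if j ≤ 2 * k then (-1 : ℤ) ^ j else 0) := by
      apply Finset.sum_congr rfl
      intro j hj
      rw [Finset.mem_range] at hj
      rw [if_pos (by omega), nsmul_eq_mul]
      ring
    rw [h1, h2]
    symm
    apply Finset.sum_subset
    · intro m hm
      rw [Finset.mem_range] at hm ⊢
      omega
    · intro m _ hm
      rw [Finset.mem_range] at hm
      rw [if_neg (by omega), smul_zero]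
  rw [h]
  exact alt_range _ _

theorem piece_alt : S_alt := by
  classical
  intro z k d hd
  set T : Finset ℕ := (Pz z).filter (fun p => p ∣ d) with hT
  have key : ∑ S ∈ Bi z k, (if (∏ p ∈ S, p) ∣ d then (-1 : ℝ) ^ S.card else 0) =
      ((∑ S ∈ T.powerset, (if S.card ≤ 2 * k then (-1 : ℤ) ^ S.card else 0) : ℤ) : ℝ) := by
    have h1 : ∑ S ∈ Bi z k, (if (∏ p ∈ S, p) ∣ d then (-1 : ℝ) ^ S.card else 0) =
        ∑ S ∈ (Pz z).powerset, (if S.card ≤ 2 * k then
          (if (∏ p ∈ S, p) ∣ d then (-1 : ℝ) ^ S.card else 0) else 0) := by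
      rw [Bi, Finset.sum_filter]
    have h2 : ∑ S ∈ (Pz z).powerset, (if S.card ≤ 2 * k then
          (if (∏ p ∈ S, p) ∣ d then (-1 : ℝ) ^ S.card else 0) else 0) =
        ∑ S ∈ T.powerset, (if S.card ≤ 2 * k then (-1 : ℝ) ^ S.card else 0) := by
      symm
      have hsub : T.powerset ⊆ (Pz z).powerset :=
        Finset.powerset_mono.2 (Finset.filter_subset _ _)
      rw [← Finset.sum_subset hsub (f := fun S => (if S.card ≤ 2 * k then
          (if (∏ p ∈ S, p) ∣ d then (-1 : ℝ) ^ S.card else 0) else 0))]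
      · apply Finset.sum_congr rfl
        intro S hS
        rw [Finset.mem_powerset] at hS
        have hdv : (∏ p ∈ S, p) ∣ d := by
          apply Finset.prod_primes_dvd
          · intro p hp
            have := (Finset.mem_filter.1 (hS hp)).1
            exact (Finset.mem_filter.1 this).2.prime
          · intro p hp
            exact (Finset.mem_filter.1 (hS hp)).2
        rw [if_pos hdv]
      · intro S hS hS'
        rw [Finset.mem_powerset] at hS hS'
        have hdv : ¬ (∏ p ∈ S, p) ∣ d := by
          intro h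
          apply hS'
          intro p hp
          exact Finset.mem_filter.2 ⟨hS hp, (Finset.dvd_prod_of_mem (fun p => p) hp).trans h⟩
        rw [if_neg hdv, ite_self]
    rw [h1, h2]
    push_cast
    apply Finset.sum_congr rfl
    intro S _
    split_ifs <;> simp
  rw [key]
  exact_mod_cast alt_powerset T k

end Pool.Agent.MP0016c7.PC.Sv
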