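import Pool.Agent.Lib.MP_0016c7_nt.PC.Sv.SStm

set_option autoImplicit false

/-! Project PrimeConductors, block [S]: the trivial bound for the weights, and `wt 1`. -/

open Finset

namespace Pool.Agent.MP0016c7.PC.Sv

private theorem bd_prime {z k : ℕ} {S : Finset ℕ} (hS : S ∈ Bi z k) : ∀ p ∈ S, p.Prime := by
  intro p hp
  rw [Bi, Finset.mem_filter, Finset.mem_powerset] at hS
  have h := hS.1 hp
  rw [Pz, Finset.mem_filter] at h
  exact h.2

private theorem bd_prod_one {z k : ℕ} {S : Finset ℕ} (hS : S ∈ Bi z k)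
    (h : ∏ p ∈ S, p = 1) : S = ∅ := by
  by_contra hne
  obtain ⟨p, hp⟩ := Finset.nonempty_iff_ne_empty.mpr hne
  have hd : p ∣ 1 := h ▸ Finset.dvd_prod_of_mem (fun p => p) hp
  exact (bd_prime hS p hp).one_lt.ne' (Nat.dvd_one.mp hd)

theorem piece_bd (h1 : S_idx) (h2 : S_la) : S_bd := by
  intro z k R hz hR
  obtain ⟨hla1, hla⟩ := h2 z R hR
  refine ⟨?_, ?_⟩
  · have h0 : (∅ : Finset ℕ) ∈ Bi z k := by
      rw [Bi, Finset.mem_filter]; simp
    have h1R : 1 ∈ Br z R := by
      rw [Br, Finset.mem_filter, Finset.mem_Icc]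
      refine ⟨⟨le_refl 1, hR⟩, squarefree_one, ?_⟩
      intro p hp
      simp at hp
    unfold wt
    rw [Finset.sum_eq_single_of_mem ∅ h0, Finset.sum_eq_single_of_mem 1 h1R,
      Finset.sum_eq_single_of_mem 1 h1R]
    · simp [hla1]
    · intro b' _ hne
      rw [if_neg]
      intro h
      rw [Finset.prod_empty, one_mul, Nat.lcm_one_left] at h
      exact hne h
    · intro b _ hne
      apply Finset.sum_eq_zero
      intro b' _
      rw [if_neg]
      intro h
      rw [Finset.prod_empty, one_mul] at h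
      apply hne
      have : b ∣ 1 := h ▸ Nat.dvd_lcm_left b b'
      exact Nat.dvd_one.mp this
    · intro S hS hne
      apply Finset.sum_eq_zero
      intro b _
      apply Finset.sum_eq_zero
      intro b' _
      rw [if_neg]
      intro h
      exact hne (bd_prod_one hS (Nat.eq_one_of_mul_eq_one_right h))
  · intro m
    have hb1 : ∀ S ∈ Bi z k, ∀ b ∈ Br z R, ∀ b' ∈ Br z R,
        |(if (∏ p ∈ S, p) * Nat.lcm b b' = m then
          (-1 : ℝ) ^ S.card * (la z R b * la z R b') else 0)| ≤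
        if (∏ p ∈ S, p) * Nat.lcm b b' = m then (1 : ℝ) else 0 := by
      intro S _ b hb b' hb'
      split_ifs
      · rw [abs_mul, abs_pow, abs_neg, abs_one, one_pow, one_mul, abs_mul]
        exact mul_le_one₀ (hla b hb) (abs_nonneg _) (hla b' hb')
      · simp
    have hle : |wt z k R m| ≤ ∑ S ∈ Bi z k, ∑ b ∈ Br z R, ∑ b' ∈ Br z R,
        if (∏ p ∈ S, p) * Nat.lcm b b' = m then (1 : ℝ) else 0 := by
      unfold wt
      refine (Finset.abs_sum_le_sum_abs _ _).trans (Finset.sum_le_sum fun S hS => ?_)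
      refine (Finset.abs_sum_le_sum_abs _ _).trans (Finset.sum_le_sum fun b hb => ?_)
      refine (Finset.abs_sum_le_sum_abs _ _).trans (Finset.sum_le_sum fun b' hb' => ?_)
      exact hb1 S hS b hb b' hb'
    refine hle.trans ?_
    have hconv : ∑ S ∈ Bi z k, ∑ b ∈ Br z R, ∑ b' ∈ Br z R,
        (if (∏ p ∈ S, p) * Nat.lcm b b' = m then (1 : ℝ) else 0) =
        ((((Bi z k) ×ˢ ((Br z R) ×ˢ (Br z R))).filter
          (fun t => (∏ p ∈ t.1, p) * Nat.lcm t.2.1 t.2.2 = m)).card : ℝ) := by
      rw [Finset.card_filter, Nat.cast_sum, Finset.sum_product]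
      refine Finset.sum_congr rfl fun S _ => ?_
      rw [Finset.sum_product]
      refine Finset.sum_congr rfl fun b _ => ?_
      refine Finset.sum_congr rfl fun b' _ => ?_
      simp only [Nat.cast_ite, Nat.cast_one, Nat.cast_zero]
    rw [hconv]
    have hcard : (((Bi z k) ×ˢ ((Br z R) ×ˢ (Br z R))).filter
          (fun t => (∏ p ∈ t.1, p) * Nat.lcm t.2.1 t.2.2 = m)).card ≤
        (m.divisors ×ˢ (m.divisors ×ˢ m.divisors)).card := by
      apply Finset.card_le_card_of_injOn (fun t => ((∏ p ∈ t.1, p), (t.2.1, t.2.2)))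
      · rintro ⟨S, b, b'⟩ ht
        rw [Finset.mem_coe, Finset.mem_filter, Finset.mem_product, Finset.mem_product] at ht
        obtain ⟨⟨hS, hb, hb'⟩, hm⟩ := ht
        dsimp only at hS hb hb' hm
        have hidx := h1 z k R hz S hS b hb b' hb'
        have hm0 : m ≠ 0 := by
          have := hidx.2.2.2.1
          omega
        rw [Finset.mem_coe, Finset.mem_product, Finset.mem_product]
        refine ⟨?_, ?_, ?_⟩
        · exact Nat.mem_divisors.mpr ⟨hm ▸ Dvd.intro _ rfl, hm0⟩
        · exact Nat.mem_divisors.mpr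
            ⟨hm ▸ dvd_mul_of_dvd_right (Nat.dvd_lcm_left b b') _, hm0⟩
        · exact Nat.mem_divisors.mpr
            ⟨hm ▸ dvd_mul_of_dvd_right (Nat.dvd_lcm_right b b') _, hm0⟩
      · rintro ⟨S, b, b'⟩ ht ⟨S2, c, c'⟩ ht2 heq
        rw [Finset.mem_coe, Finset.mem_filter, Finset.mem_product] at ht ht2
        simp only [Prod.mk.injEq] at heq
        obtain ⟨h1', h2', h3'⟩ := heq
        have hSS : S = S2 := by
          have e1 : (∏ p ∈ S, p).primeFactors = S := Nat.primeFactors_prod (bd_prime ht.1.1)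
          have e2 : (∏ p ∈ S2, p).primeFactors = S2 := Nat.primeFactors_prod (bd_prime ht2.1.1)
          rw [← e1, ← e2, h1']
        rw [hSS, h2', h3']
    rw [Finset.card_product, Finset.card_product] at hcard
    calc ((((Bi z k) ×ˢ ((Br z R) ×ˢ (Br z R))).filter
          (fun t => (∏ p ∈ t.1, p) * Nat.lcm t.2.1 t.2.2 = m)).card : ℝ)
        ≤ ((m.divisors.card * (m.divisors.card * m.divisors.card) : ℕ) : ℝ) := by
          exact_mod_cast hcard
      _ = (m.divisors.card : ℝ) ^ 3 := by push_cast; ring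

end Pool.Agent.MP0016c7.PC.Sv
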