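import Pool.Agent.Lib.MP_0016c7_nt.PC.Sv.SStm

set_option autoImplicit false

/-!
Project PrimeConductors, block [S]: the density of Brun's pure sieve.
-/

open Finset

namespace Pool.Agent.MP0016c7.PC.Sv

private theorem br_prime {z p : ℕ} (hp : p ∈ Pz z) : p.Prime := (Finset.mem_filter.1 hp).2

private theorem br_cop {z N : ℕ} {S : Finset ℕ} (hS : S ⊆ Pz z) :
    Nat.Coprime (∏ p ∈ S, p) N ↔ S ⊆ (Pz z).filter (fun p => ¬ p ∣ N) := by
  rw [Nat.coprime_prod_left_iff]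
  constructor
  · intro h p hp
    exact Finset.mem_filter.2 ⟨hS hp, (br_prime (hS hp)).coprime_iff_not_dvd.1 (h p hp)⟩
  · intro h p hp
    exact (br_prime (hS hp)).coprime_iff_not_dvd.2 (Finset.mem_filter.1 (h hp)).2

private theorem br_term (S : Finset ℕ) :
    (-1 : ℝ) ^ S.card / ((∏ p ∈ S, p : ℕ) : ℝ) = ∏ p ∈ S, (-(1 / (p : ℝ))) := by
  rw [Nat.cast_prod, Finset.prod_neg, Finset.prod_div_distrib, Finset.prod_const_one]
  ring

private theorem br_DB (z k N : ℕ) : DB z k N =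
    ∑ S ∈ ((Pz z).filter (fun p => ¬ p ∣ N)).powerset.filter (fun S => S.card ≤ 2 * k),
      ∏ p ∈ S, (-(1 / (p : ℝ))) := by
  unfold DB Bi
  rw [← Finset.sum_filter]
  refine Finset.sum_congr ?_ fun S _ => br_term S
  ext S
  simp only [Finset.mem_filter, Finset.mem_powerset]
  constructor
  · rintro ⟨⟨h1, h2⟩, h3⟩
    exact ⟨(br_cop h1).1 h3, h2⟩
  · rintro ⟨h1, h2⟩
    have h3 : S ⊆ Pz z := h1.trans (Finset.filter_subset _ _)
    exact ⟨⟨h3, h2⟩, (br_cop h3).2 h1⟩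

theorem piece_brun : S_brun := by
  intro z k N
  set Q := (Pz z).filter (fun p => ¬ p ∣ N) with hQ
  have h1 : ∏ p ∈ Q, (1 - 1 / (p : ℝ)) = ∑ S ∈ Q.powerset, ∏ p ∈ S, (-(1 / (p : ℝ))) := by
    rw [← Finset.prod_one_add]
    exact Finset.prod_congr rfl fun p _ => by ring
  have h2 : DB z k N - ∏ p ∈ Q, (1 - 1 / (p : ℝ)) =
      - ∑ S ∈ Q.powerset.filter (fun S => ¬ S.card ≤ 2 * k), ∏ p ∈ S, (-(1 / (p : ℝ))) := by
    rw [br_DB, h1, ← Finset.sum_filter_add_sum_filter_not Q.powerset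
      (fun S => S.card ≤ 2 * k) (fun S => ∏ p ∈ S, (-(1 / (p : ℝ))))]
    ring
  rw [h2, abs_neg]
  have h3 : ∀ S : Finset ℕ, |∏ p ∈ S, (-(1 / (p : ℝ)))| = ∏ p ∈ S, (1 / (p : ℝ)) := by
    intro S
    rw [Finset.abs_prod]
    refine Finset.prod_congr rfl fun p _ => ?_
    rw [abs_neg, abs_of_nonneg (by positivity)]
  have h4 : ∀ S : Finset ℕ, Real.exp ((S.card : ℝ) - 2 * k) * ∏ p ∈ S, (1 / (p : ℝ)) =
      Real.exp (-(2 * (k : ℝ))) * ∏ p ∈ S, (Real.exp 1 / (p : ℝ)) := by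
    intro S
    have : Real.exp ((S.card : ℝ) - 2 * k) = Real.exp (-(2 * (k : ℝ))) * Real.exp 1 ^ S.card := by
      rw [← Real.exp_nat_mul, ← Real.exp_add]
      congr 1
      ring
    rw [this, Finset.prod_div_distrib, Finset.prod_div_distrib, Finset.prod_const_one,
      Finset.prod_const]
    ring
  calc |∑ S ∈ Q.powerset.filter (fun S => ¬ S.card ≤ 2 * k), ∏ p ∈ S, (-(1 / (p : ℝ)))|
      ≤ ∑ S ∈ Q.powerset.filter (fun S => ¬ S.card ≤ 2 * k), |∏ p ∈ S, (-(1 / (p : ℝ)))| :=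
        Finset.abs_sum_le_sum_abs _ _
    _ ≤ ∑ S ∈ Q.powerset.filter (fun S => ¬ S.card ≤ 2 * k),
          Real.exp ((S.card : ℝ) - 2 * k) * ∏ p ∈ S, (1 / (p : ℝ)) := by
        refine Finset.sum_le_sum fun S hS => ?_
        rw [h3]
        have h5 : 2 * k ≤ S.card := (not_le.1 (Finset.mem_filter.1 hS).2).le
        have h6 : (2 : ℝ) * k ≤ S.card := by exact_mod_cast h5
        have h7 : 1 ≤ Real.exp ((S.card : ℝ) - 2 * k) := Real.one_le_exp (by linarith)
        have h8 : 0 ≤ ∏ p ∈ S, (1 / (p : ℝ)) := Finset.prod_nonneg fun p _ => by positivity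
        nlinarith
    _ ≤ ∑ S ∈ Q.powerset, Real.exp ((S.card : ℝ) - 2 * k) * ∏ p ∈ S, (1 / (p : ℝ)) := by
        refine Finset.sum_le_sum_of_subset_of_nonneg (Finset.filter_subset _ _) fun S _ _ => ?_
        have h8 : 0 ≤ ∏ p ∈ S, (1 / (p : ℝ)) := Finset.prod_nonneg fun p _ => by positivity
        positivity
    _ = Real.exp (-(2 * (k : ℝ))) * ∏ p ∈ Q, (1 + Real.exp 1 / (p : ℝ)) := by
        rw [Finset.prod_one_add, Finset.mul_sum]
        exact Finset.sum_congr rfl fun S _ => h4 S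
    _ ≤ Real.exp (-(2 * (k : ℝ))) * ∏ p ∈ Q, Real.exp (3 * (1 / (p : ℝ))) := by
        refine mul_le_mul_of_nonneg_left ?_ (Real.exp_pos _).le
        refine Finset.prod_le_prod (fun p _ => by positivity) fun p _ => ?_
        have h5 : Real.exp 1 / (p : ℝ) ≤ 3 * (1 / (p : ℝ)) := by
          have : Real.exp 1 ≤ 3 := by
            have := Real.exp_one_lt_d9
            linarith
          calc Real.exp 1 / (p : ℝ) = Real.exp 1 * (1 / (p : ℝ)) := by ring
            _ ≤ 3 * (1 / (p : ℝ)) := mul_le_mul_of_nonneg_right this (by positivity)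
        have h6 := Real.add_one_le_exp (3 * (1 / (p : ℝ)))
        linarith
    _ = Real.exp (3 * (∑ p ∈ Q, 1 / (p : ℝ)) - 2 * k) := by
        rw [← Real.exp_sum, ← Real.exp_add, ← Finset.mul_sum]
        congr 1
        ring
    _ ≤ Real.exp (3 * (∑ p ∈ Pz z, 1 / (p : ℝ)) - 2 * k) := by
        refine Real.exp_le_exp.2 ?_
        have : ∑ p ∈ Q, 1 / (p : ℝ) ≤ ∑ p ∈ Pz z, 1 / (p : ℝ) :=
          Finset.sum_le_sum_of_subset_of_nonneg (Finset.filter_subset _ _) fun p _ _ => by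
            positivity
        linarith

end Pool.Agent.MP0016c7.PC.Sv
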