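import Pool.Agent.Lib.MP_0016c7_nt.PC.Sv.SStm

set_option autoImplicit false

/-! Project PrimeConductors, block [S]: the influence of the coprimality condition. -/

open Finset

namespace Pool.Agent.MP0016c7.PC.Sv

private theorem cop_prime_dvd {z R N b : ℕ} (hb : b ∈ Br z R) (hN : 0 < N)
    (h : ¬ Nat.Coprime b N) : ∃ p ∈ Pl z N, p ∣ b := by
  obtain ⟨p, hp, hpb, hpN⟩ := Nat.Prime.not_coprime_iff_dvd.mp h
  rw [Br, Finset.mem_filter, Finset.mem_Icc] at hb
  have hb0 : b ≠ 0 := by omega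
  refine ⟨p, ?_, hpb⟩
  rw [Pl, Finset.mem_filter]
  exact ⟨Nat.mem_primeFactors.mpr ⟨hp, hpN, hN.ne'⟩,
    hb.2.2 p (Nat.mem_primeFactors.mpr ⟨hp, hpb, hb0⟩)⟩

private theorem cop_card {p c : ℕ} (hp : p.Prime) (hc : 0 < c) :
    (p * c).divisors.card ≤ 2 * c.divisors.card := by
  have hsub : (p * c).divisors ⊆ c.divisors ∪ c.divisors.image (fun d => p * d) := by
    intro d hd
    rw [Nat.mem_divisors] at hd
    rw [Finset.mem_union, Finset.mem_image]
    by_cases hpd : p ∣ d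
    · right
      obtain ⟨e, rfl⟩ := hpd
      refine ⟨e, ?_, rfl⟩
      rw [Nat.mem_divisors]
      exact ⟨Nat.dvd_of_mul_dvd_mul_left hp.pos hd.1, hc.ne'⟩
    · left
      rw [Nat.mem_divisors]
      refine ⟨?_, hc.ne'⟩
      have : Nat.Coprime d p := ((Nat.Prime.coprime_iff_not_dvd hp).mpr hpd).symm
      exact this.dvd_of_dvd_mul_left hd.1
  calc (p * c).divisors.card ≤ _ := Finset.card_le_card hsub
    _ ≤ c.divisors.card + (c.divisors.image (fun d => p * d)).card := Finset.card_union_le _ _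
    _ ≤ c.divisors.card + c.divisors.card := by
        exact Nat.add_le_add_left Finset.card_image_le _
    _ = 2 * c.divisors.card := by ring

private theorem cop_mult {R p : ℕ} (hp : p.Prime) :
    ∑ b ∈ (Icc 1 R).filter (fun b => p ∣ b), (b.divisors.card : ℝ) / b ≤
      2 / (p : ℝ) * ∑ c ∈ Icc 1 R, (c.divisors.card : ℝ) / c := by
  have hp0 : (0 : ℝ) < p := by exact_mod_cast hp.pos
  have hsub : (Icc 1 R).filter (fun b => p ∣ b) ⊆ (Icc 1 R).image (fun c => p * c) := by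
    intro b hb
    rw [Finset.mem_filter, Finset.mem_Icc] at hb
    obtain ⟨⟨hb1, hbR⟩, c, rfl⟩ := hb
    rw [Finset.mem_image]
    refine ⟨c, ?_, rfl⟩
    rw [Finset.mem_Icc]
    constructor
    · rcases Nat.eq_zero_or_pos c with h | h
      · subst h; omega
      · exact h
    · exact (Nat.le_mul_of_pos_left c hp.pos).trans hbR
  calc ∑ b ∈ (Icc 1 R).filter (fun b => p ∣ b), (b.divisors.card : ℝ) / b
      ≤ ∑ b ∈ (Icc 1 R).image (fun c => p * c), (b.divisors.card : ℝ) / b := by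
        apply Finset.sum_le_sum_of_subset_of_nonneg hsub
        intro i _ _
        positivity
    _ = ∑ c ∈ Icc 1 R, ((p * c).divisors.card : ℝ) / ((p * c : ℕ) : ℝ) := by
        rw [Finset.sum_image]
        intro a _ b _ h
        exact Nat.eq_of_mul_eq_mul_left hp.pos h
    _ ≤ ∑ c ∈ Icc 1 R, 2 / (p : ℝ) * ((c.divisors.card : ℝ) / c) := by
        apply Finset.sum_le_sum
        intro c hc
        rw [Finset.mem_Icc] at hc
        have hc0 : (0 : ℝ) < c := by exact_mod_cast hc.1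
        have h2 : ((p * c).divisors.card : ℝ) ≤ 2 * (c.divisors.card : ℝ) := by
          exact_mod_cast cop_card hp hc.1
        rw [Nat.cast_mul, div_mul_div_comm]
        gcongr
    _ = 2 / (p : ℝ) * ∑ c ∈ Icc 1 R, (c.divisors.card : ℝ) / c := by
        rw [Finset.mul_sum]

private theorem cop_half {z R N p : ℕ} (h2 : S_sums) (hR : 1 ≤ R) (hp : p ∈ Pl z N) :
    ∑ b ∈ Br z R, ∑ b' ∈ Br z R, (if p ∣ b then 1 / (Nat.lcm b b' : ℝ) else 0) ≤
      2 * (1 / (p : ℝ)) * (1 + Real.log R) ^ 3 := by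
  have hpp : p.Prime := by
    rw [Pl, Finset.mem_filter] at hp
    exact Nat.prime_of_mem_primeFactors hp.1
  have hp0 : (0 : ℝ) < p := by exact_mod_cast hpp.pos
  have hlog : (0 : ℝ) ≤ 1 + Real.log R := by
    have := Real.log_natCast_nonneg R
    linarith
  obtain ⟨hs1, hs2⟩ := h2 R hR
  have hstep : ∀ b ∈ Br z R, ∑ b' ∈ Br z R, (if p ∣ b then 1 / (Nat.lcm b b' : ℝ) else 0) ≤
      if p ∣ b then (b.divisors.card : ℝ) / b * (1 + Real.log R) else 0 := by
    intro b hb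
    rw [Br, Finset.mem_filter, Finset.mem_Icc] at hb
    split_ifs with h
    · refine le_trans ?_ (hs2 b hb.1.1)
      apply Finset.sum_le_sum_of_subset_of_nonneg (Finset.filter_subset _ _)
      intro i _ _
      positivity
    · simp
  calc ∑ b ∈ Br z R, ∑ b' ∈ Br z R, (if p ∣ b then 1 / (Nat.lcm b b' : ℝ) else 0)
      ≤ ∑ b ∈ Br z R, (if p ∣ b then (b.divisors.card : ℝ) / b * (1 + Real.log R) else 0) :=
        Finset.sum_le_sum hstep
    _ ≤ ∑ b ∈ Icc 1 R,
          (if p ∣ b then (b.divisors.card : ℝ) / b * (1 + Real.log R) else 0) := by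
        apply Finset.sum_le_sum_of_subset_of_nonneg (Finset.filter_subset _ _)
        intro i _ _
        split_ifs
        · positivity
        · exact le_refl 0
    _ = (∑ b ∈ (Icc 1 R).filter (fun b => p ∣ b), (b.divisors.card : ℝ) / b) *
          (1 + Real.log R) := by
        rw [Finset.sum_filter, Finset.sum_mul]
        refine Finset.sum_congr rfl fun b _ => ?_
        split_ifs <;> simp
    _ ≤ (2 / (p : ℝ) * ∑ c ∈ Icc 1 R, (c.divisors.card : ℝ) / c) * (1 + Real.log R) :=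
        mul_le_mul_of_nonneg_right (cop_mult hpp) hlog
    _ ≤ (2 / (p : ℝ) * (1 + Real.log R) ^ 2) * (1 + Real.log R) := by
        gcongr
    _ = 2 * (1 / (p : ℝ)) * (1 + Real.log R) ^ 3 := by ring

theorem piece_cop (h1 : S_la) (h2 : S_sums) : S_cop := by
  intro z R N hR hN
  obtain ⟨_, hla⟩ := h1 z R hR
  have hdiff : DS z R N -
      ∑ b ∈ Br z R, ∑ b' ∈ Br z R, la z R b * la z R b' / (Nat.lcm b b' : ℝ) =
      ∑ b ∈ Br z R, ∑ b' ∈ Br z R,
        ((if Nat.Coprime b N ∧ Nat.Coprime b' N then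
          la z R b * la z R b' / (Nat.lcm b b' : ℝ) else 0) -
          la z R b * la z R b' / (Nat.lcm b b' : ℝ)) := by
    unfold DS
    rw [← Finset.sum_sub_distrib]
    refine Finset.sum_congr rfl fun b _ => ?_
    rw [← Finset.sum_sub_distrib]
  rw [hdiff]
  have hterm : ∀ b ∈ Br z R, ∀ b' ∈ Br z R,
      |(if Nat.Coprime b N ∧ Nat.Coprime b' N then
          la z R b * la z R b' / (Nat.lcm b b' : ℝ) else 0) -
          la z R b * la z R b' / (Nat.lcm b b' : ℝ)| ≤
      ∑ p ∈ Pl z N, ((if p ∣ b then 1 / (Nat.lcm b b' : ℝ) else 0) +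
        (if p ∣ b' then 1 / (Nat.lcm b b' : ℝ) else 0)) := by
    intro b hb b' hb'
    have hnn : ∀ p ∈ Pl z N, (0 : ℝ) ≤ (if p ∣ b then 1 / (Nat.lcm b b' : ℝ) else 0) +
        (if p ∣ b' then 1 / (Nat.lcm b b' : ℝ) else 0) := by
      intro p _
      have : (0 : ℝ) ≤ 1 / (Nat.lcm b b' : ℝ) := by positivity
      split_ifs <;> linarith
    by_cases hc : Nat.Coprime b N ∧ Nat.Coprime b' N
    · rw [if_pos hc, sub_self, abs_zero]
      exact Finset.sum_nonneg hnn
    · rw [if_neg hc, zero_sub, abs_neg, abs_div, abs_mul]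
      have hb1 : |la z R b| * |la z R b'| ≤ 1 :=
        mul_le_one₀ (hla b hb) (abs_nonneg _) (hla b' hb')
      have hb2 : |la z R b| * |la z R b'| / |(Nat.lcm b b' : ℝ)| ≤ 1 / (Nat.lcm b b' : ℝ) := by
        have hl : |(Nat.lcm b b' : ℝ)| = (Nat.lcm b b' : ℝ) :=
          abs_of_nonneg (Nat.cast_nonneg _)
        rw [hl]
        exact div_le_div_of_nonneg_right hb1 (Nat.cast_nonneg _)
      refine hb2.trans ?_
      have hex : ∃ p ∈ Pl z N, p ∣ b ∨ p ∣ b' := by
        rw [not_and_or] at hc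
        rcases hc with h | h
        · obtain ⟨p, hp, hd⟩ := cop_prime_dvd hb hN h
          exact ⟨p, hp, Or.inl hd⟩
        · obtain ⟨p, hp, hd⟩ := cop_prime_dvd hb' hN h
          exact ⟨p, hp, Or.inr hd⟩
      obtain ⟨p, hp, hd⟩ := hex
      refine le_trans ?_ (Finset.single_le_sum hnn hp)
      have h0 : (0 : ℝ) ≤ 1 / (Nat.lcm b b' : ℝ) := by positivity
      rcases hd with h | h
      · rw [if_pos h]
        split_ifs <;> linarith
      · rw [if_pos h]
        split_ifs <;> linarith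
  have hA : |∑ b ∈ Br z R, ∑ b' ∈ Br z R,
        ((if Nat.Coprime b N ∧ Nat.Coprime b' N then
          la z R b * la z R b' / (Nat.lcm b b' : ℝ) else 0) -
          la z R b * la z R b' / (Nat.lcm b b' : ℝ))| ≤
      ∑ b ∈ Br z R, ∑ b' ∈ Br z R, ∑ p ∈ Pl z N,
        ((if p ∣ b then 1 / (Nat.lcm b b' : ℝ) else 0) +
        (if p ∣ b' then 1 / (Nat.lcm b b' : ℝ) else 0)) := by
    refine (Finset.abs_sum_le_sum_abs _ _).trans (Finset.sum_le_sum fun b hb => ?_)
    refine (Finset.abs_sum_le_sum_abs _ _).trans (Finset.sum_le_sum fun b' hb' => ?_)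
    exact hterm b hb b' hb'
  refine hA.trans ?_
  have hswap : ∑ b ∈ Br z R, ∑ b' ∈ Br z R, ∑ p ∈ Pl z N,
        ((if p ∣ b then 1 / (Nat.lcm b b' : ℝ) else 0) +
        (if p ∣ b' then 1 / (Nat.lcm b b' : ℝ) else 0)) =
      ∑ p ∈ Pl z N, (∑ b ∈ Br z R, ∑ b' ∈ Br z R,
          (if p ∣ b then 1 / (Nat.lcm b b' : ℝ) else 0) +
        ∑ b ∈ Br z R, ∑ b' ∈ Br z R,
          (if p ∣ b then 1 / (Nat.lcm b b' : ℝ) else 0)) := by
    have e1 : ∀ b ∈ Br z R, ∑ b' ∈ Br z R, ∑ p ∈ Pl z N,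
        ((if p ∣ b then 1 / (Nat.lcm b b' : ℝ) else 0) +
        (if p ∣ b' then 1 / (Nat.lcm b b' : ℝ) else 0)) =
        ∑ p ∈ Pl z N, ∑ b' ∈ Br z R,
        ((if p ∣ b then 1 / (Nat.lcm b b' : ℝ) else 0) +
        (if p ∣ b' then 1 / (Nat.lcm b b' : ℝ) else 0)) := fun b _ => Finset.sum_comm
    rw [Finset.sum_congr rfl e1, Finset.sum_comm]
    refine Finset.sum_congr rfl fun p _ => ?_
    simp only [Finset.sum_add_distrib]
    congr 1
    rw [Finset.sum_comm]
    refine Finset.sum_congr rfl fun b _ => Finset.sum_congr rfl fun b' _ => ?_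
    rw [Nat.lcm_comm]
  rw [hswap]
  calc ∑ p ∈ Pl z N, (∑ b ∈ Br z R, ∑ b' ∈ Br z R,
          (if p ∣ b then 1 / (Nat.lcm b b' : ℝ) else 0) +
        ∑ b ∈ Br z R, ∑ b' ∈ Br z R,
          (if p ∣ b then 1 / (Nat.lcm b b' : ℝ) else 0))
      ≤ ∑ p ∈ Pl z N, (2 * (1 / (p : ℝ)) * (1 + Real.log R) ^ 3 +
          2 * (1 / (p : ℝ)) * (1 + Real.log R) ^ 3) :=
        Finset.sum_le_sum fun p hp => add_le_add (cop_half h2 hR hp) (cop_half h2 hR hp)
    _ = 4 * sl z N * (1 + Real.log R) ^ 3 := by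
        unfold sl
        rw [Finset.mul_sum, Finset.sum_mul]
        refine Finset.sum_congr rfl fun p _ => ?_
        ring

end Pool.Agent.MP0016c7.PC.Sv
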