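import Pool.Agent.Lib.MP_0016c7_nt.PC.Sv.SStm

set_option autoImplicit false

open Finset

namespace Pool.Agent.MP0016c7.PC.Sv

theorem piece_den (h1 : S_idx) : S_den := by
  intro z k R N T hz hT
  have hidx := h1 z k R hz
  set F := (Icc 1 T).filter (fun m => Nat.Coprime m N) with hF
  have e1 : ∑ m ∈ F, wt z k R m / (m : ℝ) =
      ∑ S ∈ Bi z k, ∑ b ∈ Br z R, ∑ b' ∈ Br z R, ∑ m ∈ F,
        (if (∏ p ∈ S, p) * Nat.lcm b b' = m then
          ((-1 : ℝ) ^ S.card * (la z R b * la z R b')) / (m : ℝ) else 0) := by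
    unfold wt
    simp_rw [Finset.sum_div, ite_div, zero_div]
    rw [Finset.sum_comm]
    refine Finset.sum_congr rfl fun S _ => ?_
    rw [Finset.sum_comm]
    refine Finset.sum_congr rfl fun b _ => ?_
    rw [Finset.sum_comm]
  rw [e1]
  unfold DB DS
  rw [Finset.sum_mul]
  refine Finset.sum_congr rfl fun S hS => ?_
  rw [Finset.mul_sum]
  refine Finset.sum_congr rfl fun b hb => ?_
  rw [Finset.mul_sum]
  refine Finset.sum_congr rfl fun b' hb' => ?_
  obtain ⟨-, -, -, hn1, hn2⟩ := hidx S hS b hb b' hb'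
  rw [Finset.sum_ite_eq]
  set P := ∏ p ∈ S, p with hP
  have hmem : (P * Nat.lcm b b' ∈ F) ↔ (Nat.Coprime P N ∧ (Nat.Coprime b N ∧ Nat.Coprime b' N)) := by
    rw [hF, Finset.mem_filter, Finset.mem_Icc]
    constructor
    · rintro ⟨-, h⟩
      rw [Nat.coprime_mul_iff_left] at h
      exact ⟨h.1, Nat.Coprime.coprime_dvd_left (Nat.dvd_lcm_left b b') h.2,
        Nat.Coprime.coprime_dvd_left (Nat.dvd_lcm_right b b') h.2⟩
    · rintro ⟨hPN, hbN, hbN'⟩
      refine ⟨⟨hn1, hn2.trans hT⟩, ?_⟩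
      rw [Nat.coprime_mul_iff_left]
      refine ⟨hPN, Nat.Coprime.coprime_dvd_left (Nat.lcm_dvd (Dvd.intro _ rfl) (Dvd.intro_left _ rfl))
        (Nat.Coprime.mul_left hbN hbN')⟩
  by_cases hc1 : Nat.Coprime P N
  · by_cases hc2 : Nat.Coprime b N ∧ Nat.Coprime b' N
    · rw [if_pos (hmem.mpr ⟨hc1, hc2⟩), if_pos hc1, if_pos hc2]
      push_cast
      rw [mul_div_mul_comm]
    · rw [if_neg (fun h => hc2 (hmem.mp h).2), if_neg hc2, mul_zero]
  · rw [if_neg (fun h => hc1 (hmem.mp h).1), if_neg hc1, zero_mul]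

end Pool.Agent.MP0016c7.PC.Sv
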