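import Pool.Agent.Lib.MP_0016c7_nt.PC.Sv.SStm

set_option autoImplicit false

open Finset

namespace Pool.Agent.MP0016c7.PC.Sv

theorem piece_div (h1 : S_idx) : S_div := by
  intro z k R hz d hd
  have e1 : ∑ m ∈ d.divisors, wt z k R m = ∑ S ∈ Bi z k, ∑ b ∈ Br z R, ∑ b' ∈ Br z R,
      (if (∏ p ∈ S, p) * Nat.lcm b b' ∣ d then
        (-1 : ℝ) ^ S.card * (la z R b * la z R b') else 0) := by
    unfold wt
    rw [Finset.sum_comm]
    refine Finset.sum_congr rfl fun S _ => ?_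
    rw [Finset.sum_comm]
    refine Finset.sum_congr rfl fun b _ => ?_
    rw [Finset.sum_comm]
    refine Finset.sum_congr rfl fun b' _ => ?_
    rw [Finset.sum_ite_eq]
    simp only [Nat.mem_divisors, ne_eq, hd.ne', not_false_eq_true, and_true]
  rw [e1, sq, Finset.sum_mul_sum, Finset.sum_mul_sum]
  refine Finset.sum_congr rfl fun S hS => ?_
  refine Finset.sum_congr rfl fun b hb => ?_
  rw [Finset.mul_sum]
  refine Finset.sum_congr rfl fun b' hb' => ?_
  have hco := (h1 z k R hz S hS b hb b' hb').2.2.1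
  have hiff : (∏ p ∈ S, p) * Nat.lcm b b' ∣ d ↔ (∏ p ∈ S, p) ∣ d ∧ b ∣ d ∧ b' ∣ d := by
    constructor
    · intro h
      have h2 : Nat.lcm b b' ∣ d := (Dvd.intro_left _ rfl).trans h
      exact ⟨(Dvd.intro _ rfl).trans h, (Nat.dvd_lcm_left _ _).trans h2,
        (Nat.dvd_lcm_right _ _).trans h2⟩
    · rintro ⟨h, h2, h3⟩
      exact Nat.Coprime.mul_dvd_of_dvd_of_dvd hco h (Nat.lcm_dvd h2 h3)
  by_cases hP : (∏ p ∈ S, p) ∣ d
  · by_cases hB : b ∣ d
    · by_cases hB' : b' ∣ d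
      · rw [if_pos (hiff.2 ⟨hP, hB, hB'⟩), if_pos hP, if_pos hB, if_pos hB']
      · rw [if_neg (fun h => hB' (hiff.1 h).2.2), if_neg hB']; ring
    · rw [if_neg (fun h => hB (hiff.1 h).2.1), if_neg hB]; ring
  · rw [if_neg (fun h => hP (hiff.1 h).1), if_neg hP]; ring

end Pool.Agent.MP0016c7.PC.Sv
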