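import Mathlib
import Pool.Agent.Lib.MP_0016c7_nt.PC.Sv.SStm

set_option autoImplicit false

/-!
Project PrimeConductors, block [S]: the factor `gN`.
-/

open Finset

namespace Pool.Agent.MP0016c7.PC.Sv

private theorem gN_mem {z p : ℕ} : p ∈ Pz z ↔ (3 ≤ p ∧ p ≤ z) ∧ p.Prime := by
  simp [Pz]

private theorem gN_half {p : ℕ} (hp : p.Prime) : 0 < 1 / (p : ℝ) ∧ 1 / (p : ℝ) ≤ 1 / 2 := by
  have h3 : (2 : ℝ) ≤ (p : ℝ) := by exact_mod_cast hp.two_le
  exact ⟨by positivity, one_div_le_one_div_of_le (by norm_num) h3⟩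

private theorem gN_pl {z N p : ℕ} (hp : p ∈ Pl z N) : p.Prime := by
  unfold Pl at hp
  exact Nat.prime_of_mem_primeFactors (Finset.mem_filter.1 hp).1

private theorem gN_card (N : ℕ) (hN : 0 < N) : (N.primeFactors.card : ℝ) ≤ 2 * Real.log N := by
  have h1 : 2 ^ N.primeFactors.card ≤ N := by
    calc 2 ^ N.primeFactors.card = ∏ p ∈ N.primeFactors, 2 := by simp
      _ ≤ ∏ p ∈ N.primeFactors, p := Finset.prod_le_prod' fun p hp =>
          (Nat.prime_of_mem_primeFactors hp).two_le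
      _ ≤ N := Nat.le_of_dvd hN (Nat.prod_primeFactors_dvd N)
  have h2 : ((2 : ℝ)) ^ N.primeFactors.card ≤ (N : ℝ) := by exact_mod_cast h1
  have h3 := Real.log_le_log (by positivity) h2
  rw [Real.log_pow] at h3
  have h4 : (1 / 2 : ℝ) ≤ Real.log 2 := by
    have := Real.log_two_gt_d9
    linarith
  have h5 : (0 : ℝ) ≤ (N.primeFactors.card : ℝ) := by positivity
  nlinarith

theorem piece_gN : S_gN := by
  refine ⟨?_, ?_, ?_, ?_⟩
  · intro z N hN
    have hN0 : N ≠ 0 := by
      rintro rfl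
      simp at hN
    have hV : V1 z = (∏ p ∈ (Pz z).filter (fun p => p ∣ N), (1 - 1 / (p : ℝ))) *
        ∏ p ∈ (Pz z).filter (fun p => ¬ p ∣ N), (1 - 1 / (p : ℝ)) :=
      (Finset.prod_filter_mul_prod_filter_not (Pz z) (fun p => p ∣ N) _).symm
    have hF : ∏ p ∈ N.primeFactors, (1 - 1 / (p : ℝ))⁻¹ =
        (∏ p ∈ Pl z N, (1 - 1 / (p : ℝ))⁻¹) *
          ∏ p ∈ N.primeFactors.filter (fun p => ¬ z < p), (1 - 1 / (p : ℝ))⁻¹ :=
      (Finset.prod_filter_mul_prod_filter_not N.primeFactors (fun p => z < p) _).symm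
    have hset : N.primeFactors.filter (fun p => ¬ z < p) = (Pz z).filter (fun p => p ∣ N) := by
      ext p
      simp only [mem_filter, Nat.mem_primeFactors, gN_mem]
      constructor
      · rintro ⟨⟨h1, h2, _⟩, h4⟩
        have h5 := h1.two_le
        have h6 : p ≠ 2 := by
          rintro rfl
          rw [Nat.odd_iff] at hN
          omega
        exact ⟨⟨⟨by omega, by omega⟩, h1⟩, h2⟩
      · rintro ⟨⟨⟨h1, h2⟩, h3⟩, h4⟩
        exact ⟨⟨h3, h4, hN0⟩, by omega⟩
    have hcancel : (∏ p ∈ (Pz z).filter (fun p => p ∣ N), (1 - 1 / (p : ℝ))) *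
        ∏ p ∈ (Pz z).filter (fun p => p ∣ N), (1 - 1 / (p : ℝ))⁻¹ = 1 := by
      rw [← Finset.prod_mul_distrib]
      apply Finset.prod_eq_one
      intro p hp
      have h1 := gN_half (gN_mem.1 (Finset.mem_filter.1 hp).1).2
      apply mul_inv_cancel₀
      have : 0 < 1 - 1 / (p : ℝ) := by linarith
      exact this.ne'
    rw [hV, hF, hset]
    generalize (∏ p ∈ (Pz z).filter (fun p => p ∣ N), (1 - 1 / (p : ℝ))) = A at hcancel ⊢
    generalize (∏ p ∈ (Pz z).filter (fun p => p ∣ N), (1 - 1 / (p : ℝ))⁻¹) = B at hcancel ⊢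
    generalize (∏ p ∈ (Pz z).filter (fun p => ¬ p ∣ N), (1 - 1 / (p : ℝ))) = C
    generalize (∏ p ∈ Pl z N, (1 - 1 / (p : ℝ))⁻¹) = D
    linear_combination (-(C * D)) * hcancel
  · intro z N
    constructor
    · apply Finset.one_le_prod
      intro p hp
      obtain ⟨h1, h2⟩ := gN_half (gN_pl hp)
      exact (one_le_inv₀ (by linarith)).2 (by linarith)
    · unfold sl
      rw [Finset.mul_sum, Real.exp_sum]
      refine Finset.prod_le_prod ?_ ?_
      · intro p hp
        have h1 := gN_half (gN_pl hp)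
        exact inv_nonneg.2 (by linarith)
      · intro p hp
        obtain ⟨h1, h2⟩ := gN_half (gN_pl hp)
        have h3 : 0 < 1 - 1 / (p : ℝ) := by linarith
        rw [inv_le_iff_one_le_mul₀ h3]
        have h4 : 1 + 2 * (1 / (p : ℝ)) ≤ Real.exp (2 * (1 / (p : ℝ))) := by
          have := Real.add_one_le_exp (2 * (1 / (p : ℝ)))
          linarith
        nlinarith
  · intro z N hz hN
    have hz' : (0 : ℝ) < (z : ℝ) := by exact_mod_cast hz
    constructor
    · unfold sl
      exact Finset.sum_nonneg fun p _ => by positivity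
    · have h1 : sl z N ≤ ∑ _p ∈ Pl z N, 1 / (z : ℝ) := by
        unfold sl
        refine Finset.sum_le_sum fun p hp => ?_
        have h2 : z < p := (Finset.mem_filter.1 hp).2
        exact one_div_le_one_div_of_le hz' (by exact_mod_cast h2.le)
      rw [Finset.sum_const, nsmul_eq_mul] at h1
      have h2 : ((Pl z N).card : ℝ) ≤ (N.primeFactors.card : ℝ) := by
        exact_mod_cast Finset.card_filter_le _ _
      have h3 := gN_card N hN
      calc sl z N ≤ ((Pl z N).card : ℝ) * (1 / (z : ℝ)) := h1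
        _ ≤ (2 * Real.log N) * (1 / (z : ℝ)) := by
            gcongr
            linarith
        _ = 2 * Real.log N / z := by ring
  · intro z N
    have hpos : ∀ p ∈ (Pz z).filter (fun p => ¬ p ∣ N), 0 ≤ 1 - 1 / (p : ℝ) ∧
        1 - 1 / (p : ℝ) ≤ 1 := by
      intro p hp
      obtain ⟨h1, h2⟩ := gN_half (gN_mem.1 (Finset.mem_filter.1 hp).1).2
      constructor <;> linarith
    exact ⟨Finset.prod_nonneg fun p hp => (hpos p hp).1,
      Finset.prod_le_one (fun p hp => (hpos p hp).1) fun p hp => (hpos p hp).2⟩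

end Pool.Agent.MP0016c7.PC.Sv
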