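import Pool.Agent.Lib.MP_0016c7_nt.PC.Sv.SStm

set_option autoImplicit false

/-! Project PrimeConductors, block [S]: elementary facts on the index sets. -/

open Finset

namespace Pool.Agent.MP0016c7.PC.Sv

private theorem idx_sqf (S : Finset ℕ) (h : ∀ p ∈ S, p.Prime) : Squarefree (∏ p ∈ S, p) := by
  classical
  induction S using Finset.induction_on with
  | empty => simp
  | insert a S ha ih =>
    rw [Finset.prod_insert ha]
    have hap : a.Prime := h a (Finset.mem_insert_self a S)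
    have hS : ∀ p ∈ S, p.Prime := fun p hp => h p (Finset.mem_insert_of_mem hp)
    have hco : Nat.Coprime a (∏ p ∈ S, p) := by
      rw [Nat.coprime_prod_right_iff]
      intro p hp
      rw [Nat.coprime_primes hap (hS p hp)]
      rintro rfl
      exact ha hp
    rw [Nat.squarefree_mul hco]
    exact ⟨hap.squarefree, ih hS⟩

private theorem idx_lcm (b b' : ℕ) (hb : Squarefree b) (hb' : Squarefree b') :
    Squarefree (Nat.lcm b b') := by
  rw [Nat.squarefree_iff_factorization_le_one (Nat.lcm_ne_zero hb.ne_zero hb'.ne_zero)]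
  intro p
  rw [Nat.factorization_lcm hb.ne_zero hb'.ne_zero, Finsupp.sup_apply, sup_le_iff]
  exact ⟨hb.natFactorization_le_one p, hb'.natFactorization_le_one p⟩

theorem piece_idx : S_idx := by
  intro z k R hz S hS b hb b' hb'
  rw [Bi, Finset.mem_filter, Finset.mem_powerset] at hS
  obtain ⟨hSz, hcard⟩ := hS
  rw [Br, Finset.mem_filter, Finset.mem_Icc] at hb hb'
  obtain ⟨⟨hb1, hbR⟩, hbs, hbp⟩ := hb
  obtain ⟨⟨hb1', hbR'⟩, hbs', hbp'⟩ := hb'
  have hSp : ∀ p ∈ S, p.Prime ∧ 3 ≤ p ∧ p ≤ z := by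
    intro p hp
    have h := hSz hp
    rw [Pz, Finset.mem_filter, Finset.mem_Icc] at h
    exact ⟨h.2, h.1.1, h.1.2⟩
  have hl : ∀ p, p.Prime → p ∣ Nat.lcm b b' → z < p := by
    intro p hp hd
    have h1 : p ∣ b * b' := hd.trans (Nat.lcm_dvd_mul b b')
    rcases (Nat.Prime.dvd_mul hp).1 h1 with h | h
    · exact hbp p (Nat.mem_primeFactors.2 ⟨hp, h, by omega⟩)
    · exact hbp' p (Nat.mem_primeFactors.2 ⟨hp, h, by omega⟩)
  have hco : Nat.Coprime (∏ p ∈ S, p) (Nat.lcm b b') := by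
    rw [Nat.coprime_prod_left_iff]
    intro p hp
    obtain ⟨h1, _, h3⟩ := hSp p hp
    rw [Nat.Prime.coprime_iff_not_dvd h1]
    intro h
    have := hl p h1 h
    omega
  have hP2 : Nat.Coprime (∏ p ∈ S, p) 2 := by
    rw [Nat.coprime_prod_left_iff]
    intro p hp
    obtain ⟨h1, h2, _⟩ := hSp p hp
    rw [Nat.coprime_primes h1 Nat.prime_two]
    omega
  have hl2 : Nat.Coprime (Nat.lcm b b') 2 := by
    rw [Nat.coprime_comm, Nat.Prime.coprime_iff_not_dvd Nat.prime_two]
    intro h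
    have := hl 2 Nat.prime_two h
    omega
  have hsq : Squarefree ((∏ p ∈ S, p) * Nat.lcm b b') := by
    rw [Nat.squarefree_mul hco]
    exact ⟨idx_sqf S fun p hp => (hSp p hp).1, idx_lcm b b' hbs hbs'⟩
  refine ⟨?_, hsq, hco, Nat.one_le_iff_ne_zero.2 hsq.ne_zero, ?_⟩
  · rw [← Nat.coprime_two_right]
    exact Nat.Coprime.mul_left hP2 hl2
  · refine Nat.mul_le_mul ?_ ?_
    · calc ∏ p ∈ S, p ≤ z ^ S.card := Finset.prod_le_pow_card S _ z fun p hp => (hSp p hp).2.2
        _ ≤ z ^ (2 * k) := Nat.pow_le_pow_right (by omega) hcard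
    · calc Nat.lcm b b' ≤ b * b' :=
          Nat.le_of_dvd (Nat.mul_pos (by omega) (by omega)) (Nat.lcm_dvd_mul b b')
        _ ≤ R ^ 2 := by
          rw [sq]
          exact Nat.mul_le_mul hbR hbR'

end Pool.Agent.MP0016c7.PC.Sv
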