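import Pool.Agent.Lib.MP_0016c7_nt.PC.Sv.SStm

set_option autoImplicit false

/-!
Project PrimeConductors, block [S]: [PC S08], the size of Selberg's weights.
-/

open Finset

namespace Pool.Agent.MP0016c7.PC.Sv

private theorem sla_mem_Br {z R n : ℕ} :
    n ∈ Br z R ↔ (1 ≤ n ∧ n ≤ R) ∧ Squarefree n ∧ ∀ p ∈ n.primeFactors, z < p := by
  unfold Br
  rw [Finset.mem_filter, Finset.mem_Icc]

private theorem sla_one {z R : ℕ} (hR : 1 ≤ R) : 1 ∈ Br z R :=
  sla_mem_Br.2 ⟨⟨le_rfl, hR⟩, squarefree_one, by simp⟩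

private theorem sla_GG_pos {z R : ℕ} (hR : 1 ≤ R) : 0 < GG z R := by
  have h1 : (0 : ℝ) < 1 / ((1 : ℕ).totient : ℝ) := by simp
  refine lt_of_lt_of_le h1 ?_
  unfold GG
  exact Finset.single_le_sum (f := fun l : ℕ => 1 / (l.totient : ℝ))
    (fun i _ => by positivity) (sla_one hR)

private theorem sla_Gb_one {z R : ℕ} : Gb z R 1 = GG z R := by
  unfold Gb GG
  congr 1
  apply Finset.filter_true_of_mem
  intro l hl
  exact ⟨Nat.coprime_one_right l, by rw [mul_one]; exact (sla_mem_Br.1 hl).1.2⟩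

private theorem sla_ratio {b : ℕ} (hb : Squarefree b) :
    (b : ℝ) / (b.totient : ℝ) = ∑ h ∈ b.divisors, 1 / (h.totient : ℝ) := by
  have hb0 : b ≠ 0 := hb.ne_zero
  have hφ : (b.totient : ℝ) ≠ 0 := by
    have := Nat.totient_pos.2 (Nat.pos_of_ne_zero hb0)
    positivity
  rw [div_eq_iff hφ, Finset.sum_mul]
  have h1 : (b : ℝ) = ∑ h ∈ b.divisors, (((b / h).totient : ℕ) : ℝ) := by
    rw [← Nat.cast_sum, Nat.sum_div_divisors b Nat.totient, Nat.sum_totient]
  conv_lhs => rw [h1]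
  refine Finset.sum_congr rfl fun h hh => ?_
  have hd := Nat.dvd_of_mem_divisors hh
  obtain ⟨c, rfl⟩ := hd
  have hh0 : 0 < h := Nat.pos_of_mem_divisors hh
  have hcop := (Nat.squarefree_mul_iff.1 hb).1
  rw [Nat.mul_div_cancel_left _ hh0, Nat.totient_mul hcop]
  have : (0 : ℝ) < (h.totient : ℝ) := by exact_mod_cast Nat.totient_pos.2 hh0
  push_cast
  field_simp

private theorem sla_main {z R b : ℕ} (hb : b ∈ Br z R) :
    (b : ℝ) / (b.totient : ℝ) * Gb z R b ≤ GG z R := by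
  obtain ⟨⟨hb1, hbR⟩, hsq, hpf⟩ := sla_mem_Br.1 hb
  rw [sla_ratio hsq]
  unfold Gb
  rw [Finset.sum_mul_sum, ← Finset.sum_product']
  set F := (Br z R).filter (fun l => Nat.Coprime l b ∧ l * b ≤ R) with hF
  have hinj : Set.InjOn (fun x : ℕ × ℕ => x.1 * x.2) (↑(b.divisors ×ˢ F) : Set (ℕ × ℕ)) := by
    rintro ⟨h, l⟩ hx ⟨h', l'⟩ hx' heq
    simp only [Finset.coe_product, Set.mem_prod, Finset.mem_coe, hF, Finset.mem_filter] at hx hx'
    simp only at heq
    have e1 : Nat.gcd (h * l) b = h := by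
      rw [Nat.Coprime.gcd_mul_right_cancel _ hx.2.2.1]
      exact Nat.gcd_eq_left (Nat.dvd_of_mem_divisors hx.1)
    have e2 : Nat.gcd (h' * l') b = h' := by
      rw [Nat.Coprime.gcd_mul_right_cancel _ hx'.2.2.1]
      exact Nat.gcd_eq_left (Nat.dvd_of_mem_divisors hx'.1)
    have e3 : h = h' := by rw [← e1, ← e2, heq]
    subst e3
    have hpos : 0 < h := Nat.pos_of_mem_divisors hx.1
    rw [Nat.eq_of_mul_eq_mul_left hpos heq]
  have hval : ∀ x ∈ b.divisors ×ˢ F, 1 / (x.1.totient : ℝ) * (1 / (x.2.totient : ℝ)) =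
      1 / ((x.1 * x.2).totient : ℝ) := by
    rintro ⟨h, l⟩ hx
    simp only [Finset.mem_product, hF, Finset.mem_filter] at hx
    have hcop : Nat.Coprime h l :=
      (Nat.Coprime.coprime_dvd_right (Nat.dvd_of_mem_divisors hx.1) hx.2.2.1).symm
    simp only
    rw [Nat.totient_mul hcop]
    push_cast
    rw [one_div_mul_one_div]
  rw [Finset.sum_congr rfl hval, ← Finset.sum_image (f := fun n : ℕ => 1 / (n.totient : ℝ))
    (g := fun x : ℕ × ℕ => x.1 * x.2) hinj]
  unfold GG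
  refine Finset.sum_le_sum_of_subset_of_nonneg ?_ fun i _ _ => by positivity
  intro n hn
  obtain ⟨⟨h, l⟩, hx, rfl⟩ := Finset.mem_image.1 hn
  simp only [Finset.mem_product, hF, Finset.mem_filter] at hx
  obtain ⟨hh, hl, hlb, hlR⟩ := hx
  obtain ⟨⟨hl1, _⟩, hlsq, hlpf⟩ := sla_mem_Br.1 hl
  have hhb := Nat.dvd_of_mem_divisors hh
  have hh0 : 0 < h := Nat.pos_of_mem_divisors hh
  have hcop : Nat.Coprime h l := (Nat.Coprime.coprime_dvd_right hhb hlb).symm
  refine sla_mem_Br.2 ⟨⟨Nat.mul_pos hh0 hl1, ?_⟩, ?_, ?_⟩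
  · calc h * l ≤ b * l := Nat.mul_le_mul_right _ (Nat.le_of_dvd hb1 hhb)
      _ = l * b := Nat.mul_comm _ _
      _ ≤ R := hlR
  · exact Nat.squarefree_mul_iff.2 ⟨hcop, hsq.squarefree_of_dvd hhb, hlsq⟩
  · intro p hp
    have hp' : p ∈ (h * l).primeFactors := hp
    rw [Nat.primeFactors_mul hh0.ne' (by omega), Finset.mem_union] at hp'
    rcases hp' with hp' | hp'
    · exact hpf p (Nat.primeFactors_mono hhb (by omega) hp')
    · exact hlpf p hp'

theorem piece_la : S_la := by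
  intro z R hR
  have hG := sla_GG_pos (z := z) hR
  constructor
  · unfold la
    rw [sla_Gb_one]
    simp [hG.ne']
  · intro b hb
    obtain ⟨⟨hb1, hbR⟩, hsq, hpf⟩ := sla_mem_Br.1 hb
    have hGb : 0 ≤ Gb z R b := by
      unfold Gb
      exact Finset.sum_nonneg fun i _ => by positivity
    have h1 := sla_main hb
    have h2 : |((ArithmeticFunction.moebius b : ℤ) : ℝ)| ≤ 1 := by
      have := ArithmeticFunction.abs_moebius_le_one (n := b)
      exact_mod_cast this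
    have h3 : 0 ≤ (b : ℝ) / (b.totient : ℝ) * Gb z R b / GG z R := by positivity
    have h4 : la z R b = ((ArithmeticFunction.moebius b : ℤ) : ℝ) *
        ((b : ℝ) / (b.totient : ℝ) * Gb z R b / GG z R) := by
      unfold la
      ring
    rw [h4, abs_mul, abs_of_nonneg h3]
    calc |((ArithmeticFunction.moebius b : ℤ) : ℝ)| * ((b : ℝ) / (b.totient : ℝ) * Gb z R b / GG z R)
        ≤ 1 * 1 := mul_le_mul h2 ((div_le_one hG).2 h1) h3 zero_le_one
      _ = 1 := one_mul 1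

end Pool.Agent.MP0016c7.PC.Sv
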