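import Mathlib
import Pool.Agent.Lib.MP_0016c7_nt.PC.Sv.SStm
import Pool.Agent.Lib.MP_0da313_nt.MT.Mertens

set_option autoImplicit false

/-!
Project PrimeConductors, block [S]: Mertens' bounds.
-/

open Finset

namespace Pool.Agent.MP0016c7.PC.Sv

private theorem mert_mem {z p : ℕ} : p ∈ Pz z ↔ (3 ≤ p ∧ p ≤ z) ∧ p.Prime := by
  simp [Pz]

theorem piece_mert : S_mert := by
  intro z hz
  have hz' : (3 : ℝ) ≤ (z : ℝ) := by exact_mod_cast hz
  have hlog : 0 < Real.log z := Real.log_pos (by linarith)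
  have hset : (Finset.Icc 1 z).filter Nat.Prime = insert 2 (Pz z) := by
    ext p
    simp only [mem_filter, mem_Icc, mem_insert, mert_mem]
    constructor
    · rintro ⟨⟨h1, h2⟩, h3⟩
      by_cases h : p = 2
      · exact Or.inl h
      · have := h3.two_le
        exact Or.inr ⟨⟨by omega, h2⟩, h3⟩
    · rintro (rfl | ⟨⟨h1, h2⟩, h3⟩)
      · exact ⟨⟨by omega, by omega⟩, Nat.prime_two⟩
      · exact ⟨⟨by omega, h2⟩, h3⟩
  have hkap : Pool.Agent.MP89da58.kapD z = 1 / 2 * V1 z := by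
    unfold Pool.Agent.MP89da58.kapD V1
    rw [hset, Finset.prod_insert (by
      rw [mert_mem]
      omega)]
    norm_num
  have hm := Pool.Agent.MT.mertens z (by omega)
  rw [hkap] at hm
  have hpos : ∀ p ∈ Pz z, 0 < 1 - 1 / (p : ℝ) ∧ 1 - 1 / (p : ℝ) ≤ 1 := by
    intro p hp
    have h3 : (3 : ℝ) ≤ (p : ℝ) := by exact_mod_cast (mert_mem.1 hp).1.1
    have h4 : 1 / (p : ℝ) ≤ 1 / 3 := one_div_le_one_div_of_le (by norm_num) h3
    have h5 : 0 < 1 / (p : ℝ) := by positivity
    constructor <;> linarith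
  have hV : 0 < V1 z := Finset.prod_pos fun p hp => (hpos p hp).1
  have h1 : 1 / (500 * Real.log z) ≤ V1 z := by
    rw [div_le_iff₀ (by positivity)]
    linarith
  refine ⟨h1, Finset.prod_le_one (fun p hp => (hpos p hp).1.le) fun p hp => (hpos p hp).2, ?_⟩
  have h2 : Real.log (V1 z) ≤ - ∑ p ∈ Pz z, 1 / (p : ℝ) := by
    unfold V1
    rw [Real.log_prod (fun p hp => (hpos p hp).1.ne'), ← Finset.sum_neg_distrib]
    refine Finset.sum_le_sum fun p hp => ?_
    have := Real.log_le_sub_one_of_pos (hpos p hp).1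
    linarith
  have h3 : Real.log (1 / (500 * Real.log z)) ≤ Real.log (V1 z) :=
    Real.log_le_log (by positivity) h1
  rw [one_div, Real.log_inv, Real.log_mul (by norm_num) hlog.ne'] at h3
  have h4 : Real.log 500 ≤ 7 := by
    rw [Real.log_le_iff_le_exp (by norm_num)]
    have h5 : Real.exp 7 = Real.exp 1 ^ 7 := by
      rw [← Real.exp_nat_mul]
      norm_num
    rw [h5]
    have h6 : (2.7 : ℝ) ≤ Real.exp 1 := by
      have := Real.exp_one_gt_d9
      linarith
    calc (500 : ℝ) ≤ 2.7 ^ 7 := by norm_num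
      _ ≤ Real.exp 1 ^ 7 := by gcongr
  linarith

end Pool.Agent.MP0016c7.PC.Sv
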