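import Pool.Agent.Lib.MP_0016c7_nt.PC.Sv.SStm

set_option autoImplicit false

/-! Project PrimeConductors, block [S]: the minimum of Selberg's quadratic form. -/

open Finset

namespace Pool.Agent.MP0016c7.PC.Sv

private theorem min_dvd {z R b e : ℕ} (hb : b ∈ Br z R) (he : e ∣ b) : e ∈ Br z R := by
  rw [Br, Finset.mem_filter, Finset.mem_Icc] at hb ⊢
  obtain ⟨⟨h1, h2⟩, h3, h4⟩ := hb
  have hb0 : 0 < b := by omega
  refine ⟨⟨Nat.pos_of_dvd_of_pos he hb0, (Nat.le_of_dvd hb0 he).trans h2⟩,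
    h3.squarefree_of_dvd he, fun p hp => h4 p ?_⟩
  exact Nat.primeFactors_mono he hb0.ne' hp

private theorem min_div {z R b b' : ℕ} (hb : b ∈ Br z R) :
    (Nat.gcd b b').divisors = (Br z R).filter (fun e => e ∣ b ∧ e ∣ b') := by
  have hb0 : b ≠ 0 := by
    rw [Br, Finset.mem_filter, Finset.mem_Icc] at hb
    omega
  ext e
  rw [Nat.mem_divisors, Finset.mem_filter, Nat.dvd_gcd_iff]
  constructor
  · rintro ⟨⟨h1, h2⟩, _⟩
    exact ⟨min_dvd hb h1, h1, h2⟩
  · rintro ⟨_, h1, h2⟩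
    exact ⟨⟨h1, h2⟩, Nat.gcd_ne_zero_left hb0⟩

private theorem min_term {z R b b' : ℕ} (hb : b ∈ Br z R) (hb' : b' ∈ Br z R) :
    la z R b * la z R b' / (Nat.lcm b b' : ℝ) =
      ∑ e ∈ Br z R, (e.totient : ℝ) * ((if e ∣ b then la z R b / (b : ℝ) else 0) *
        (if e ∣ b' then la z R b' / (b' : ℝ) else 0)) := by
  have hb0 : b ≠ 0 := by
    rw [Br, Finset.mem_filter, Finset.mem_Icc] at hb
    omega
  have hb0' : b' ≠ 0 := by
    rw [Br, Finset.mem_filter, Finset.mem_Icc] at hb'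
    omega
  have h1 : ∑ e ∈ Br z R, (e.totient : ℝ) * ((if e ∣ b then la z R b / (b : ℝ) else 0) *
        (if e ∣ b' then la z R b' / (b' : ℝ) else 0)) =
      (∑ e ∈ (Nat.gcd b b').divisors, (e.totient : ℝ)) *
        (la z R b / (b : ℝ) * (la z R b' / (b' : ℝ))) := by
    rw [min_div hb, Finset.sum_filter, Finset.sum_mul]
    refine Finset.sum_congr rfl (fun e _ => ?_)
    by_cases h : e ∣ b
    · by_cases h' : e ∣ b'
      · simp [h, h']
      · simp [h, h']
    · simp [h]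
  have h2 : ∑ e ∈ (Nat.gcd b b').divisors, (e.totient : ℝ) = (Nat.gcd b b' : ℝ) := by
    rw [← Nat.cast_sum, Nat.sum_totient]
  rw [h1, h2]
  have h3 : (Nat.gcd b b' : ℝ) * (Nat.lcm b b' : ℝ) = b * b' := by
    exact_mod_cast Nat.gcd_mul_lcm b b'
  have h4 : (Nat.lcm b b' : ℝ) ≠ 0 := by
    exact_mod_cast Nat.lcm_ne_zero hb0 hb0'
  have h5 : (b : ℝ) ≠ 0 := by exact_mod_cast hb0
  have h6 : (b' : ℝ) ≠ 0 := by exact_mod_cast hb0'
  field_simp
  linear_combination (-(la z R b * la z R b')) * h3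

theorem piece_min (h1 : S_yy) : S_min := by
  intro z R hR
  have hG : 0 < GG z R := by
    have h1m : 1 ∈ Br z R := by
      rw [Br, Finset.mem_filter, Finset.mem_Icc]
      exact ⟨⟨le_rfl, hR⟩, squarefree_one, by simp⟩
    refine Finset.sum_pos' (fun i _ => by positivity) ⟨1, h1m, by simp⟩
  have e1 : ∑ b ∈ Br z R, ∑ b' ∈ Br z R, la z R b * la z R b' / (Nat.lcm b b' : ℝ) =
      ∑ e ∈ Br z R, (e.totient : ℝ) *
        (∑ b ∈ Br z R, if e ∣ b then la z R b / (b : ℝ) else 0) ^ 2 := by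
    have e2 : ∑ b ∈ Br z R, ∑ b' ∈ Br z R, la z R b * la z R b' / (Nat.lcm b b' : ℝ) =
        ∑ b ∈ Br z R, ∑ b' ∈ Br z R, ∑ e ∈ Br z R, (e.totient : ℝ) *
          ((if e ∣ b then la z R b / (b : ℝ) else 0) *
          (if e ∣ b' then la z R b' / (b' : ℝ) else 0)) :=
      Finset.sum_congr rfl fun b hb => Finset.sum_congr rfl fun b' hb' => min_term hb hb'
    have e3 : ∀ e ∈ Br z R, (e.totient : ℝ) *
        (∑ b ∈ Br z R, if e ∣ b then la z R b / (b : ℝ) else 0) ^ 2 =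
        ∑ b ∈ Br z R, ∑ b' ∈ Br z R, (e.totient : ℝ) *
          ((if e ∣ b then la z R b / (b : ℝ) else 0) *
          (if e ∣ b' then la z R b' / (b' : ℝ) else 0)) := by
      intro e _
      rw [sq, Finset.sum_mul_sum, Finset.mul_sum]
      refine Finset.sum_congr rfl fun b _ => ?_
      rw [Finset.mul_sum]
    rw [e2, Finset.sum_congr rfl e3]
    symm
    rw [Finset.sum_comm]
    refine Finset.sum_congr rfl fun b _ => ?_
    rw [Finset.sum_comm]
  rw [e1]
  have e4 : ∀ e ∈ Br z R, (e.totient : ℝ) *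
      (∑ b ∈ Br z R, if e ∣ b then la z R b / (b : ℝ) else 0) ^ 2 =
      1 / (e.totient : ℝ) * (1 / GG z R ^ 2) := by
    intro e he
    rw [← Finset.sum_filter, h1 z R e he]
    rw [Br, Finset.mem_filter, Finset.mem_Icc] at he
    have h2 : (ArithmeticFunction.moebius e : ℝ) ^ 2 = 1 := by
      have := ArithmeticFunction.moebius_sq_eq_one_of_squarefree he.2.1
      exact_mod_cast this
    have h3 : (e.totient : ℝ) ≠ 0 := by
      have : 0 < e.totient := Nat.totient_pos.2 (by omega)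
      exact_mod_cast this.ne'
    rw [div_pow, h2]
    field_simp
  rw [Finset.sum_congr rfl e4, ← Finset.sum_mul]
  have e5 : ∑ e ∈ Br z R, 1 / (e.totient : ℝ) = GG z R := rfl
  rw [e5]
  field_simp

end Pool.Agent.MP0016c7.PC.Sv
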