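import Mathlib
import Pool.Agent.Lib.MP_0016c7_nt.PC.Sv.SStm

set_option autoImplicit false

/-!
Project PrimeConductors, block [S]: the choice of the parameters.
-/

open Finset

namespace Pool.Agent.MP0016c7.PC.Sv

theorem piece_par : S_par := by
  intro c hc hc1 M
  have hlim := Real.tendsto_exp_div_pow_atTop 2
  have hev := hlim.eventually_ge_atTop ((((M : ℝ) + 4) * ((M : ℝ) + 26)) / c)
  obtain ⟨Y, hY⟩ := Filter.eventually_atTop.1 hev
  set Y1 : ℝ := max Y 1 with hY1
  have hY11 : 1 ≤ Y1 := le_max_right _ _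
  have h3 : (3 : ℝ) ≤ Real.exp (Real.exp Y1) := by
    have h1 : (2 : ℝ) ≤ Real.exp Y1 := by
      have := Real.add_one_le_exp Y1
      linarith
    have := Real.add_one_le_exp (Real.exp Y1)
    linarith
  refine ⟨Real.exp (Real.exp Y1), h3, ?_⟩
  intro X hX
  have hX0 : 0 < X := by linarith
  set L : ℝ := Real.log X with hL
  have hLe : Real.exp Y1 ≤ L := (Real.le_log_iff_exp_le hX0).2 hX
  have hL0 : 0 < L := (Real.exp_pos _).trans_le hLe
  set y : ℝ := Real.log L with hy
  have hyY : Y1 ≤ y := (Real.le_log_iff_exp_le hL0).2 hLe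
  have hy1 : 1 ≤ y := hY11.trans hyY
  have hyL : Real.exp y = L := Real.exp_log hL0
  have hM0 : (0 : ℝ) ≤ (M : ℝ) := Nat.cast_nonneg M
  -- the key inequality
  have hkey : (((M : ℝ) + 1) * y + 3) * (((M : ℝ) + 3) * y + 23) ≤ c * L := by
    have h4 := hY y ((le_max_left _ _).trans hyY)
    rw [div_le_div_iff₀ hc (by positivity), hyL] at h4
    have h5 : (((M : ℝ) + 1) * y + 3) ≤ ((M : ℝ) + 4) * y := by nlinarith
    have h6 : (((M : ℝ) + 3) * y + 23) ≤ ((M : ℝ) + 26) * y := by nlinarith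
    have h7 : (((M : ℝ) + 1) * y + 3) * (((M : ℝ) + 3) * y + 23) ≤
        (((M : ℝ) + 4) * y) * (((M : ℝ) + 26) * y) := by
      gcongr
    nlinarith
  set k : ℕ := ⌈(((M : ℝ) + 3) * y + 21) / 2⌉₊ with hk
  have hk1 : ((M : ℝ) + 3) * y + 21 ≤ 2 * (k : ℝ) := by
    have := Nat.le_ceil ((((M : ℝ) + 3) * y + 21) / 2)
    rw [← hk] at this
    linarith
  have hk2 : 2 * (k : ℝ) ≤ ((M : ℝ) + 3) * y + 23 := by
    have := Nat.ceil_lt_add_one (a := (((M : ℝ) + 3) * y + 21) / 2) (by positivity)
    rw [← hk] at this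
    linarith
  have hk0 : 0 < 2 * (k : ℝ) := by
    have : 0 ≤ ((M : ℝ) + 3) * y := by positivity
    linarith
  set a : ℝ := c * L / (2 * k) with ha
  have haD : ((M : ℝ) + 1) * y + 3 ≤ a := by
    rw [ha, le_div_iff₀ hk0]
    refine le_trans ?_ hkey
    gcongr
  have haL : a ≤ L := by
    rw [ha, div_le_iff₀ hk0]
    have h8 : (1 : ℝ) ≤ 2 * k := by
      have : 0 ≤ ((M : ℝ) + 3) * y := by positivity
      linarith
    have h9 : c * L ≤ 1 * L := by gcongr
    nlinarith
  have hMy : 0 ≤ ((M : ℝ) + 1) * y := by positivity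
  have ha3 : 3 ≤ a := by linarith
  set z : ℕ := ⌊Real.exp a⌋₊ with hz
  have hz1 : (z : ℝ) ≤ Real.exp a := Nat.floor_le (Real.exp_pos _).le
  have hz2 : Real.exp a < z + 1 := Nat.lt_floor_add_one _
  have hexp : 4 ≤ Real.exp a := by
    have := Real.add_one_le_exp a
    linarith
  have hz3 : 3 ≤ z := by
    rw [hz]
    apply Nat.le_floor
    push_cast
    linarith
  have hz3' : (3 : ℝ) ≤ z := by exact_mod_cast hz3
  have hzL : Real.log z ≤ L := by
    have : Real.log z ≤ Real.log (Real.exp a) := Real.log_le_log (by linarith) hz1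
    rw [Real.log_exp] at this
    linarith
  refine ⟨z, k, hz3, ?_, ?_, hzL, ?_⟩
  · calc (z : ℝ) ^ (2 * k) ≤ (Real.exp a) ^ (2 * k) := by gcongr
      _ = Real.exp ((2 * k : ℕ) * a) := (Real.exp_nat_mul _ _).symm
      _ = Real.exp (Real.log X * c) := by
          congr 1
          have hk' : (k : ℝ) ≠ 0 := by
            intro h
            rw [h] at hk0
            simp at hk0
          rw [ha]
          push_cast
          field_simp
          exact hL
      _ = X ^ c := (Real.rpow_def_of_pos hX0 c).symm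
  · -- L ^ M ≤ z
    have h10 : Real.exp (((M : ℝ) + 1) * y + 3) ≤ Real.exp a := Real.exp_le_exp.2 haD
    have h11 : L ^ M * Real.exp (y + 3) = Real.exp (((M : ℝ) + 1) * y + 3) := by
      rw [← hyL, ← Real.exp_nat_mul, ← Real.exp_add]
      congr 1
      ring
    have h12 : 1 ≤ L ^ M := by
      apply one_le_pow₀
      have := Real.add_one_le_exp y
      linarith
    have h13 : (2 : ℝ) ≤ Real.exp (y + 3) := by
      have := Real.add_one_le_exp (y + 3)
      linarith
    nlinarith
  · have h14 : Real.log (Real.log z) ≤ y := by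
      rw [hy]
      exact Real.log_le_log (Real.log_pos (by linarith)) hzL
    nlinarith

end Pool.Agent.MP0016c7.PC.Sv
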