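import Pool.Agent.Lib.MP_0016c7_nt.PC.Sv.SStm

set_option autoImplicit false

/-!
Project PrimeConductors, block [S]: Selberg's diagonal variables.
-/

open Finset

namespace Pool.Agent.MP0016c7.PC.Sv

private theorem yy_mem {z R n : ℕ} : n ∈ Br z R ↔ 1 ≤ n ∧ n ≤ R ∧ Squarefree n ∧
    ∀ p, p.Prime → p ∣ n → z < p := by
  unfold Br
  rw [Finset.mem_filter, Finset.mem_Icc]
  constructor
  · rintro ⟨⟨h1, h2⟩, h3, h4⟩
    exact ⟨h1, h2, h3, fun p hp hpn => h4 p (Nat.mem_primeFactors.2 ⟨hp, hpn, by omega⟩)⟩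
  · rintro ⟨h1, h2, h3, h4⟩
    exact ⟨⟨h1, h2⟩, h3, fun p hp => h4 p (Nat.prime_of_mem_primeFactors hp)
      (Nat.dvd_of_mem_primeFactors hp)⟩

private theorem yy_dvd {z R n b : ℕ} (hn : n ∈ Br z R) (hb : b ∣ n) : b ∈ Br z R := by
  rw [yy_mem] at hn ⊢
  obtain ⟨h1, h2, h3, h4⟩ := hn
  exact ⟨Nat.pos_of_dvd_of_pos hb h1, (Nat.le_of_dvd h1 hb).trans h2, h3.squarefree_of_dvd hb,
    fun p hp hpb => h4 p hp (hpb.trans hb)⟩

/-- the sum of the Möbius function over the divisors of `n` which are multiples of `e` -/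
private theorem yy_mu {n e : ℕ} (hn : Squarefree n) :
    ∑ b ∈ n.divisors.filter (fun b => e ∣ b), ArithmeticFunction.moebius b =
      if n = e then ArithmeticFunction.moebius e else 0 := by
  by_cases he : e ∣ n
  · obtain ⟨c, rfl⟩ := he
    have h0 : e * c ≠ 0 := hn.ne_zero
    have he0 : e ≠ 0 := left_ne_zero_of_mul h0
    have hc0 : c ≠ 0 := right_ne_zero_of_mul h0
    have hcop : Nat.Coprime e c := Nat.coprime_of_squarefree_mul hn
    have h1 : (e * c).divisors.filter (fun b => e ∣ b) = c.divisors.image (fun d => e * d) := by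
      ext b
      simp only [Finset.mem_filter, Nat.mem_divisors, Finset.mem_image]
      constructor
      · rintro ⟨⟨h2, _⟩, ⟨d, rfl⟩⟩
        exact ⟨d, ⟨Nat.dvd_of_mul_dvd_mul_left (Nat.pos_of_ne_zero he0) h2, hc0⟩, rfl⟩
      · rintro ⟨d, ⟨h2, _⟩, rfl⟩
        exact ⟨⟨Nat.mul_dvd_mul_left e h2, h0⟩, Nat.dvd_mul_right e d⟩
    rw [h1, Finset.sum_image (fun x _ y _ h => Nat.eq_of_mul_eq_mul_left
      (Nat.pos_of_ne_zero he0) h)]
    have h2 : ∀ d ∈ c.divisors, ArithmeticFunction.moebius (e * d) =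
        ArithmeticFunction.moebius e * ArithmeticFunction.moebius d := by
      intro d hd
      exact ArithmeticFunction.isMultiplicative_moebius.map_mul_of_coprime
        (hcop.coprime_dvd_right (Nat.dvd_of_mem_divisors hd))
    rw [Finset.sum_congr rfl h2, ← Finset.mul_sum]
    have h3 : ∑ d ∈ c.divisors, ArithmeticFunction.moebius d = if c = 1 then 1 else 0 := by
      rw [← ArithmeticFunction.coe_mul_zeta_apply, ArithmeticFunction.moebius_mul_coe_zeta,
        ArithmeticFunction.one_apply]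
    rw [h3]
    by_cases hc : c = 1
    · subst hc
      simp
    · have h4 : e * c ≠ e := by
        intro h
        exact hc (Nat.eq_of_mul_eq_mul_left (Nat.pos_of_ne_zero he0) (by rw [h, mul_one]))
      rw [if_neg hc, if_neg h4, mul_zero]
  · have hne : n ≠ e := by
      rintro rfl
      exact he dvd_rfl
    rw [if_neg hne]
    refine Finset.sum_eq_zero fun b hb => ?_
    rw [Finset.mem_filter, Nat.mem_divisors] at hb
    exact absurd (hb.2.trans hb.1.1) he

/-- the inner sum as a sum over the multiples of `b` -/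
private theorem yy_inner {z R b : ℕ} (hb : b ∈ Br z R) :
    1 / (b.totient : ℝ) * Gb z R b =
      ∑ n ∈ (Br z R).filter (fun n => b ∣ n), 1 / (n.totient : ℝ) := by
  have hb' := yy_mem.1 hb
  have hbp : 0 < b := hb'.1
  unfold Gb
  rw [Finset.mul_sum]
  refine Finset.sum_bij' (fun l _ => l * b) (fun n _ => n / b) ?_ ?_ ?_ ?_ ?_
  · intro l hl
    rw [Finset.mem_filter] at hl
    obtain ⟨h1, h2, h3⟩ := hl
    rw [yy_mem] at h1
    obtain ⟨a1, a2, a3, a4⟩ := h1
    rw [Finset.mem_filter, yy_mem]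
    refine ⟨⟨Nat.mul_pos a1 hbp, h3, (Nat.squarefree_mul h2).2 ⟨a3, hb'.2.2.1⟩, ?_⟩,
      Nat.dvd_mul_left b l⟩
    intro p hp hpn
    rcases (hp.dvd_mul).1 hpn with h | h
    · exact a4 p hp h
    · exact hb'.2.2.2 p hp h
  · intro n hn
    rw [Finset.mem_filter] at hn
    obtain ⟨h1, m, rfl⟩ := hn
    have hm : b * m / b = m := Nat.mul_div_cancel_left m hbp
    rw [hm, Finset.mem_filter]
    have h2 := yy_mem.1 h1
    refine ⟨yy_dvd h1 (Nat.dvd_mul_left m b), ?_, ?_⟩
    · exact (Nat.coprime_of_squarefree_mul h2.2.2.1).symm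
    · rw [mul_comm]; exact h2.2.1
  · intro l _
    exact Nat.mul_div_cancel l hbp
  · intro n hn
    rw [Finset.mem_filter] at hn
    exact Nat.div_mul_cancel hn.2
  · intro l hl
    rw [Finset.mem_filter] at hl
    rw [Nat.totient_mul hl.2.1, Nat.cast_mul, one_div_mul_one_div, mul_comm]

theorem piece_yy : S_yy := by
  intro z R e he
  have h1 : ∀ b ∈ (Br z R).filter (fun b => e ∣ b), la z R b / (b : ℝ) =
      ∑ n ∈ Br z R, if b ∣ n then
        (ArithmeticFunction.moebius b : ℝ) * (1 / (n.totient : ℝ)) / GG z R else 0 := by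
    intro b hb
    rw [Finset.mem_filter] at hb
    have hb0 : (b : ℝ) ≠ 0 := by
      have := (yy_mem.1 hb.1).1
      positivity
    have h2 : la z R b / (b : ℝ) = (ArithmeticFunction.moebius b : ℝ) *
        (1 / (b.totient : ℝ) * Gb z R b) / GG z R := by
      unfold la
      field_simp
    rw [h2, yy_inner hb.1, Finset.mul_sum, Finset.sum_div, Finset.sum_filter]
  rw [Finset.sum_congr rfl h1, Finset.sum_comm]
  have h3 : ∀ n ∈ Br z R, (∑ b ∈ (Br z R).filter (fun b => e ∣ b), if b ∣ n then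
      (ArithmeticFunction.moebius b : ℝ) * (1 / (n.totient : ℝ)) / GG z R else 0) =
      if n = e then (ArithmeticFunction.moebius e : ℝ) / ((e.totient : ℝ) * GG z R) else 0 := by
    intro n hn
    have h4 : ((Br z R).filter (fun b => e ∣ b)).filter (fun b => b ∣ n) =
        n.divisors.filter (fun b => e ∣ b) := by
      ext b
      simp only [Finset.mem_filter, Nat.mem_divisors]
      constructor
      · rintro ⟨⟨_, h5⟩, h6⟩
        exact ⟨⟨h6, (yy_mem.1 hn).2.2.1.ne_zero⟩, h5⟩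
      · rintro ⟨⟨h5, _⟩, h6⟩
        exact ⟨⟨yy_dvd hn h5, h6⟩, h5⟩
    rw [← Finset.sum_filter, h4, ← Finset.sum_div, ← Finset.sum_mul, ← Int.cast_sum,
      yy_mu (yy_mem.1 hn).2.2.1]
    by_cases h : n = e
    · subst h
      rw [if_pos rfl, if_pos rfl, mul_one_div, div_div]
    · rw [if_neg h, if_neg h, Int.cast_zero, zero_mul, zero_div]
  rw [Finset.sum_congr rfl h3, Finset.sum_ite_eq', if_pos he]

end Pool.Agent.MP0016c7.PC.Sv
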