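import Mathlib
import Pool.Agent.Lib.MP_0016c7_nt.PC.Sv.SAsm
import Pool.Agent.Lib.MP_0016c7_nt.PC.Sv.S_idx
import Pool.Agent.Lib.MP_0016c7_nt.PC.Sv.S_div
import Pool.Agent.Lib.MP_0016c7_nt.PC.Sv.S_alt
import Pool.Agent.Lib.MP_0016c7_nt.PC.Sv.S_den
import Pool.Agent.Lib.MP_0016c7_nt.PC.Sv.S_brun
import Pool.Agent.Lib.MP_0016c7_nt.PC.Sv.S_yy
import Pool.Agent.Lib.MP_0016c7_nt.PC.Sv.S_min
import Pool.Agent.Lib.MP_0016c7_nt.PC.Sv.S_la
import Pool.Agent.Lib.MP_0016c7_nt.PC.Sv.S_sums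
import Pool.Agent.Lib.MP_0016c7_nt.PC.Sv.S_cop
import Pool.Agent.Lib.MP_0016c7_nt.PC.Sv.S_Glow
import Pool.Agent.Lib.MP_0016c7_nt.PC.Sv.S_Gup
import Pool.Agent.Lib.MP_0016c7_nt.PC.Sv.S_mert
import Pool.Agent.Lib.MP_0016c7_nt.PC.Sv.S_gN
import Pool.Agent.Lib.MP_0016c7_nt.PC.Sv.S_bd
import Pool.Agent.Lib.MP_0016c7_nt.PC.Sv.S_par

set_option autoImplicit false

/-!
Project PrimeConductors, block [S]: the existence of the sieve weights.
-/

namespace Pool.Agent.MP0016c7.PC.Sv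

/-- The existence of the sieve weights (`SW` / `IF_sieve` of the interface, written out). -/
theorem sieve : S_sieve := by
  have hs := piece_sums
  have hla := piece_la
  exact sieve_of piece_idx (piece_div piece_idx) piece_alt (piece_den piece_idx) piece_brun
    (piece_min piece_yy) (piece_cop hla hs) piece_Glow (piece_Gup hs) piece_mert piece_gN
    (piece_bd piece_idx hla) piece_par

end Pool.Agent.MP0016c7.PC.Sv
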