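import Mathlib
import Pool.Agent.Lib.MP_0016c7_nt.PC.Iface
import Pool.Agent.Lib.MP_0016c7_nt.PC.Sv.SFinal

set_option autoImplicit false

/-!
Project PrimeConductors, block [S]: the interface statement `IF_sieve`.
-/

namespace Pool.Agent.MP0016c7.PC

theorem IF_sieve_proof : IF_sieve := by
  intro η hη hη2 ε₀ hε₀ A κ' hκ
  obtain ⟨X₀, h⟩ := Sv.sieve η hη hη2 ε₀ hε₀ A κ' hκ
  refine ⟨X₀, fun X hX => ?_⟩
  obtain ⟨w, V, h1, h2, h3, h4, h5, h6, h7, h8⟩ := h X hX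
  exact ⟨w, V, ⟨h1, h2, h3, h4, h5, h6, h7⟩, h8⟩

end Pool.Agent.MP0016c7.PC
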