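import Pool.Agent.Lib.MP_0016c7_nt.PC.Sv.SStm

set_option autoImplicit false

open Finset

namespace Pool.Agent.MP0016c7.PC.Sv

private lemma S09_harm (R : ℕ) : ∑ c ∈ Icc 1 R, 1 / (c : ℝ) ≤ 1 + Real.log R := by
  have h := harmonic_le_one_add_log R
  rw [harmonic_eq_sum_Icc] at h
  push_cast at h
  simpa [one_div] using h

private lemma S09_mult (R g : ℕ) (hg : 0 < g) :
    ∑ c ∈ (Icc 1 R).filter (fun c => g ∣ c), 1 / (c : ℝ) ≤
      1 / (g : ℝ) * ∑ c ∈ Icc 1 R, 1 / (c : ℝ) := by
  have hsub : (Icc 1 R).filter (fun c => g ∣ c) ⊆ (Icc 1 R).image (fun c => g * c) := by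
    intro c hc
    rw [mem_filter, mem_Icc] at hc
    obtain ⟨⟨h1, h2⟩, d, rfl⟩ := hc
    rw [mem_image]
    refine ⟨d, ?_, rfl⟩
    rw [mem_Icc]
    constructor
    · rcases Nat.eq_zero_or_pos d with h | h
      · subst h; simp at h1
      · exact h
    · exact le_trans (Nat.le_mul_of_pos_left d hg) h2
  calc ∑ c ∈ (Icc 1 R).filter (fun c => g ∣ c), 1 / (c : ℝ)
      ≤ ∑ c ∈ (Icc 1 R).image (fun c => g * c), 1 / (c : ℝ) :=
        sum_le_sum_of_subset_of_nonneg hsub (fun i _ _ => by positivity)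
    _ = ∑ c ∈ Icc 1 R, 1 / ((g * c : ℕ) : ℝ) := by
        rw [sum_image]
        intro a _ b _ hab
        exact Nat.eq_of_mul_eq_mul_left hg hab
    _ = 1 / (g : ℝ) * ∑ c ∈ Icc 1 R, 1 / (c : ℝ) := by
        rw [mul_sum]
        refine sum_congr rfl (fun c _ => ?_)
        push_cast
        rw [one_div, one_div, one_div, mul_inv]

private lemma S09_mult' (R g : ℕ) (hg : 0 < g) :
    ∑ c ∈ (Icc 1 R).filter (fun c => g ∣ c), 1 / (c : ℝ) ≤
      1 / (g : ℝ) * (1 + Real.log R) :=
  (S09_mult R g hg).trans (mul_le_mul_of_nonneg_left (S09_harm R) (by positivity))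

theorem piece_sums : S_sums := by
  intro R hR
  have hlog : 0 ≤ 1 + Real.log R := by
    have := Real.log_nonneg (show (1 : ℝ) ≤ R by exact_mod_cast hR)
    linarith
  constructor
  · calc ∑ c ∈ Icc 1 R, (c.divisors.card : ℝ) / c
        = ∑ c ∈ Icc 1 R, ∑ u ∈ Icc 1 R, (if u ∣ c then 1 / (c : ℝ) else 0) := by
          refine sum_congr rfl (fun c hc => ?_)
          rw [mem_Icc] at hc
          rw [← sum_filter, sum_const, nsmul_eq_mul]
          have : (Icc 1 R).filter (fun u => u ∣ c) = c.divisors := by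
            ext u
            rw [mem_filter, mem_Icc, Nat.mem_divisors]
            constructor
            · rintro ⟨_, h⟩
              exact ⟨h, by omega⟩
            · rintro ⟨h, h0⟩
              exact ⟨⟨Nat.pos_of_dvd_of_pos h (by omega),
                (Nat.le_of_dvd (by omega) h).trans hc.2⟩, h⟩
          rw [this]
          ring
      _ = ∑ u ∈ Icc 1 R, ∑ c ∈ (Icc 1 R).filter (fun c => u ∣ c), 1 / (c : ℝ) := by
          rw [sum_comm]
          refine sum_congr rfl (fun u _ => ?_)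
          rw [sum_filter]
      _ ≤ ∑ u ∈ Icc 1 R, 1 / (u : ℝ) * (1 + Real.log R) := by
          refine sum_le_sum (fun u hu => ?_)
          rw [mem_Icc] at hu
          exact S09_mult' R u (by omega)
      _ = (∑ u ∈ Icc 1 R, 1 / (u : ℝ)) * (1 + Real.log R) := by rw [sum_mul]
      _ ≤ (1 + Real.log R) * (1 + Real.log R) :=
          mul_le_mul_of_nonneg_right (S09_harm R) hlog
      _ = (1 + Real.log R) ^ 2 := by ring
  · intro b hb
    have hb' : (0 : ℝ) < b := by exact_mod_cast hb
    have key : ∀ b' ∈ Icc 1 R, 1 / (Nat.lcm b b' : ℝ) ≤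
        ∑ g ∈ b.divisors, (if g ∣ b' then (g : ℝ) / ((b : ℝ) * b') else 0) := by
      intro b' hb'1
      rw [mem_Icc] at hb'1
      have hbp : (0 : ℝ) < b' := by exact_mod_cast (show 0 < b' by omega)
      have hlcm : (Nat.lcm b b' : ℝ) * (Nat.gcd b b' : ℝ) = (b : ℝ) * b' := by
        rw [mul_comm]
        exact_mod_cast Nat.gcd_mul_lcm b b'
      have hgpos : (0 : ℝ) < Nat.gcd b b' := by
        exact_mod_cast Nat.gcd_pos_of_pos_left b' hb
      have hlpos : (0 : ℝ) < Nat.lcm b b' := by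
        exact_mod_cast Nat.lcm_pos hb (by omega)
      have h1 : 1 / (Nat.lcm b b' : ℝ) = (Nat.gcd b b' : ℝ) / ((b : ℝ) * b') := by
        rw [← hlcm]
        field_simp
      rw [h1]
      have hmem : Nat.gcd b b' ∈ b.divisors := by
        rw [Nat.mem_divisors]
        exact ⟨Nat.gcd_dvd_left b b', by omega⟩
      calc (Nat.gcd b b' : ℝ) / ((b : ℝ) * b')
          = (if Nat.gcd b b' ∣ b' then ((Nat.gcd b b' : ℕ) : ℝ) / ((b : ℝ) * b') else 0) := by
            rw [if_pos (Nat.gcd_dvd_right b b')]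
        _ ≤ ∑ g ∈ b.divisors, (if g ∣ b' then (g : ℝ) / ((b : ℝ) * b') else 0) :=
            single_le_sum (f := fun g : ℕ => (if g ∣ b' then (g : ℝ) / ((b : ℝ) * b') else 0))
              (fun i _ => by
                show (0 : ℝ) ≤ if i ∣ b' then (i : ℝ) / ((b : ℝ) * b') else 0
                split_ifs
                · positivity
                · exact le_refl 0) hmem
    calc ∑ b' ∈ Icc 1 R, 1 / (Nat.lcm b b' : ℝ)
        ≤ ∑ b' ∈ Icc 1 R, ∑ g ∈ b.divisors, (if g ∣ b' then (g : ℝ) / ((b : ℝ) * b') else 0) :=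
          sum_le_sum key
      _ = ∑ g ∈ b.divisors, ∑ b' ∈ (Icc 1 R).filter (fun b' => g ∣ b'),
            (g : ℝ) / ((b : ℝ) * b') := by
          rw [sum_comm]
          refine sum_congr rfl (fun g _ => ?_)
          rw [sum_filter]
      _ ≤ ∑ g ∈ b.divisors, 1 / (b : ℝ) * (1 + Real.log R) := by
          refine sum_le_sum (fun g hg => ?_)
          have hgp : 0 < g := Nat.pos_of_mem_divisors hg
          have hgp' : (0 : ℝ) < g := by exact_mod_cast hgp
          have h := S09_mult' R g hgp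
          calc ∑ b' ∈ (Icc 1 R).filter (fun b' => g ∣ b'), (g : ℝ) / ((b : ℝ) * b')
              = (g : ℝ) / b * ∑ b' ∈ (Icc 1 R).filter (fun b' => g ∣ b'), 1 / (b' : ℝ) := by
                rw [mul_sum]
                refine sum_congr rfl (fun c _ => ?_)
                rw [div_mul_div_comm, mul_one]
            _ ≤ (g : ℝ) / b * (1 / (g : ℝ) * (1 + Real.log R)) :=
                mul_le_mul_of_nonneg_left h (by positivity)
            _ = 1 / (b : ℝ) * (1 + Real.log R) := by
                field_simp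
      _ = (b.divisors.card : ℝ) / b * (1 + Real.log R) := by
          rw [sum_const, nsmul_eq_mul]
          ring

end Pool.Agent.MP0016c7.PC.Sv
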